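import Pool.Agent.N145.PL.Erase2
import Pool.Agent.N145.PC.Dich

/-!
Quasi-projective varieties finitely dominated by products of open curves of large logarithmic
gonality: `A¹`-uniruled, or of large logarithmic Kodaira dimension.
-/

set_option autoImplicit false
set_option linter.overlappingInstances false
set_option linter.unusedSectionVars false
set_option linter.unusedVariables false
set_option maxHeartbeats 4000000
set_option synthInstance.maxHeartbeats 400000

open Polynomial FF IsDedekindDomain IntermediateField Module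

namespace Pool.Agent.N145.PL

open Pool.Agent.W603.LV Pool.Agent.W619.PQ Pool.Agent.N145.PC
open Pool.Agent.W602.GT (Divisorial RegAt IsPluri DerReg KodGe LogSec)
open Pool.Agent.Y184.NT (trForm trForm_pluri)

open scoped Classical

section

variable {K : Type} [Field K] [Algebra ℂ K] {n : ℕ}
  {L : Type} [Field L] [Algebra ℂ L] [Algebra L K] [IsScalarTower ℂ L K]
  [FiniteDimensional L K]

/-- **The logarithmic dichotomy.** -/
theorem dichotomyL (hbase : S_BASE) (hcurve : S_CURVE) (hA1 : S_A1)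
    [hess : Algebra.EssFiniteType ℂ K] {F : Fin (n + 1) → IntermediateField ℂ K}
    [∀ i, IsFF ℂ (F i)] (hsup : ⨆ i, F i = ⊤)
    (hK : Algebra.trdeg ℂ K = (n + 1 : ℕ)) {B : ∀ i, Set (Place ℂ (F i))}
    (hBf : ∀ i, (B i).Finite) {BL : Place ℂ L → Prop}
    (hB1 : ∀ (P : Place ℂ L) (Q : Place ℂ K) (e : ℕ), Over Q P e →
      BdK (E := fun i => F i) B Q → BL P)
    (hB2 : ∀ (P : Place ℂ L) (Q : Place ℂ K) (e : ℕ), Over Q P e → BL P →
      BdK (E := fun i => F i) B Q)
    {g : Fin (n + 1) → ℕ} (hg : ∀ i, ∀ y : F i, Transcendental ℂ y → (∀ P ∈ B i, 0 < P.ord y) →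
      g i ≤ finrank ℂ⟮y⟯ (F i)) {s : ℕ}
    (hs : ∀ l : Fin (n + 1), l.val < s → 2 * finrank (MF F L (Js _ l))
      (IntermediateField.adjoin (MF F L (Js _ l)) (F l : Set K)) < g l)
    (hpair : ∀ i j : Fin (n + 1), s ≤ i.val → s ≤ j.val → i ≠ j →
      2 * finrank (MF F L (Js _ s))
        (IntermediateField.adjoin (MF F L (Js _ s)) (F i : Set K)) < g i ∨
      2 * finrank (MF F L (Js _ s))
        (IntermediateField.adjoin (MF F L (Js _ s)) (F j : Set K)) < g j ∨
      2 * finrank (MF F L (Js _ s)) K + 3 ≤ g i + g j) :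
    Pool.Agent.W619.PL.IsA1Uniruled ℂ L (n + 1) BL ∨ KodGe ℂ L (n + 1) BL n := by
  have hL : Algebra.trdeg ℂ L = (n + 1 : ℕ) := Pool.Agent.Y184.NT.trdeg_below (K := K) hK
  have hessL : Algebra.EssFiniteType ℂ L := Pool.Agent.TH466.QG.ess_below (K := K)
  choose x hx hBx using fun i => exists_xB (hBf i)
  choose D0 hD0 using fun i => exists_D (hx i)
  have hD0' : ∀ i, D0 i ≠ 0 := by
    intro i h
    have := hD0 i
    rw [h] at this
    simp at this
  have halg := Pool.Agent.W619.X.alg_of_sup F hsup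
  have hb := Pool.Agent.W619.X.basis_of_alg F halg hK x hx
  obtain ⟨y, G, h, hy, hG, hh, hm, hreg, hval⟩ :=
    exists_traceL (L := L) (E := fun i => F i) hK hL hx hb hD0 B hB1
  have herase := a1_erase hbase hcurve hA1 hsup hK hx hD0 hBx hB2 hval
  by_cases hrat : ∃ l, ∀ f ∈ HL (D0 l) (B l), f = 0
  · -- a factor without logarithmic differentials
    obtain ⟨l, hl⟩ := hrat
    refine Or.inl (herase l fun f hf => ?_)
    rw [Finset.prod_eq_zero (Finset.mem_univ l) (by rw [hl _ hf, map_zero]), mul_zero, map_zero]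
  push Not at hrat
  choose f0 hf0H hf0 using hrat
  have hm' := mem_MF_univ hm
  obtain ⟨τ0⟩ : Nonempty (K →ₐ[L] AlgebraicClosure L) :=
    ⟨IsAlgClosed.lift (R := L) (M := AlgebraicClosure L) (S := K)⟩
  have hT : IsScalarTower ℂ L (AlgebraicClosure L) := inferInstance
  have hτne : ∀ (τ : K →ₐ[L] AlgebraicClosure L) (z : K), z ≠ 0 → τ z ≠ 0 := fun τ z hz =>
    (_root_.map_ne_zero τ).2 hz
  by_cases hT0 : ∃ f : {f : ∀ i, F i // ∀ i, f i ∈ HL (D0 i) (B i)},
      Algebra.trace L K (h * ∏ i, algebraMap (F i) K (f.1 i)) ≠ 0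
  swap
  · -- all traces vanish
    left
    push Not at hT0
    have h0 := rel_zeroH (H := fun i => (HL (D0 i) (B i) : Set (F i))) (h := h)
      (fun f hf => hT0 ⟨f, hf⟩) τ0
    have hsep := fun i => sep_FL (Ω := AlgebraicClosure L) hx hD0 hBf hBx (hg i)
    have h1 := Rl.chain h0 hsep (s := s)
      (fun l hl => lt_of_le_of_lt (count_le τ0 _ l) (lt_of_le_of_lt (by omega) (hs l hl)))
    have h2 := Rl.all_but_one h1 (fun τ => hτne τ h hh) g hsep f0 (fun l _ => hf0H l)
      (fun l τ => hτne τ (f0 l : K) (fun h => hf0 l (Subtype.ext h))) (by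
        intro i j hi hj hij
        rw [mem_Js, not_lt] at hi hj
        rcases hpair i j hi hj hij with h3 | h3 | h3
        · exact Or.inl (lt_of_le_of_lt (count_le τ0 _ _) (by omega))
        · exact Or.inr (Or.inl (lt_of_le_of_lt (count_le τ0 _ _) (by omega)))
        · right; right
          rw [card_le']
          omega)
    rcases h2 with h2 | ⟨i0, h2⟩
    · exact (rel_univH hh hm' h2).elim
    · exact herase i0 fun f hf => rel_eraseH h2 f hf
  · -- some trace does not vanish
    obtain ⟨f1, hf1⟩ := hT0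
    obtain ⟨T, hTdef⟩ : ∃ T : {f : ∀ i, F i // ∀ i, f i ∈ HL (D0 i) (B i)} → L,
      ∀ f, T f = Algebra.trace L K (h * ∏ i, algebraMap (F i) K (f.1 i)) := ⟨_, fun _ => rfl⟩
    obtain ⟨Ω', iF, iA, iC, i1, i2, lam, hlam, hlamT, hpts⟩ := exists_pts T (f1 := f1)
      (by rw [hTdef]; exact hf1)
    have h0 : Rl (P2 i1 i2 F L) (ev Ω' F) (fun i => (HL (D0 i) (B i) : Set (F i)))
        (C2 i1 i2 h lam) (Sum.inl τ0) ∅ :=
      rel2_zero i1 i2 (fun f hf => by
        have := hlamT ⟨f, hf⟩
        rw [hTdef] at this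
        exact this) _
    have hsep := fun i => sep_FL (Ω := Ω') hx hD0 hBf hBx (hg i)
    have h1 := Rl.chain h0 hsep (s := s)
      (fun l hl => lt_of_le_of_lt (count2_le i1 i2 τ0 _ l) (hs l hl))
    have h2 := Rl.all_but_one h1 (fun ρ => by
        rcases ρ with τ | τ
        · change -(lam * i1 (τ h)) ≠ 0
          rw [neg_ne_zero]
          exact mul_ne_zero hlam ((_root_.map_ne_zero i1).2 (hτne τ h hh))
        · exact (_root_.map_ne_zero i2).2 (hτne τ h hh)) g hsep f0
      (fun l _ => hf0H l) (fun l ρ => by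
        have h3 : (f0 l : K) ≠ 0 := fun h => hf0 l (Subtype.ext h)
        rcases ρ with τ | τ
        · exact (_root_.map_ne_zero i1).2 (hτne τ _ h3)
        · exact (_root_.map_ne_zero i2).2 (hτne τ _ h3)) (by
        intro i j hi hj hij
        rw [mem_Js, not_lt] at hi hj
        rcases hpair i j hi hj hij with h3 | h3 | h3
        · exact Or.inl (lt_of_le_of_lt (count2_le i1 i2 τ0 _ _) h3)
        · exact Or.inr (Or.inl (lt_of_le_of_lt (count2_le i1 i2 τ0 _ _) h3))
        · right; right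
          have := card2_le i1 i2 (F := F) τ0 (Js _ s)
          omega)
    -- the Kodaira dimension
    have hkod : ∀ i0 : Fin (n + 1), (∃ τ : K →ₐ[L] AlgebraicClosure L, ∀ i, i ≠ i0 →
        ∀ z : F i, i2 (τ z) = i1 (τ0 z)) → KodGe ℂ L (n + 1) BL n := by
      rintro i0 ⟨τ, hτ⟩
      have hind : AlgebraicIndependent ℂ fun l : Fin n => algebraMap (F (i0.succAbove l)) K
          (x (i0.succAbove l)) :=
        hb.1.comp i0.succAbove Fin.succAbove_right_injective
      refine kodGe_of_algL hL hG T ⟨f1, by rw [hTdef]; exact hf1⟩ (fun f P hP => ?_)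
        (trdeg_adj hind) fun l => ?_
      · rw [hTdef]
        exact hreg f.1 f.2 P hP
      · exact alg_back τ0 (hpts _ _ (hτ _ (Fin.succAbove_ne i0 l) (x (i0.succAbove l))).symm)
    rcases h2 with h2 | ⟨i0, h2⟩
    · obtain ⟨τ, hτ⟩ := rel2_univ i1 i2 hlam hh hm' h2
      exact Or.inr (hkod 0 ⟨τ, fun i _ z => hτ i z⟩)
    · rcases rel2_erase i1 i2 hlam h2 with h3 | h3
      · exact Or.inr (hkod i0 h3)
      · exact Or.inl (herase i0 h3)

end

end Pool.Agent.N145.PL
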