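import Pool.Agent.N145.PL.Dich
import Pool.Agent.N145.PL.A1Psef

/-!
Logarithmic forms on images of products of open curves: the case of one fibre.
-/

set_option autoImplicit false
set_option linter.overlappingInstances false
set_option linter.unusedSectionVars false
set_option linter.unusedVariables false
set_option maxHeartbeats 4000000
set_option synthInstance.maxHeartbeats 400000

open Polynomial FF IsDedekindDomain IntermediateField Module

namespace Pool.Agent.N145.PL

open Pool.Agent.W603.LV Pool.Agent.W619.PQ Pool.Agent.N145.PC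
open Pool.Agent.W602.GT (Divisorial RegAt IsPluri DerReg KodGe LogSec Psef psef_of_kodGe)
open Pool.Agent.Y184.NT (trForm trForm_pluri)
open Pool.Agent.R882.LT (LogGenusZero)
open Pool.Agent.W619.PL (IsA1Uniruled)

open scoped Classical

section

variable {K : Type} [Field K] [Algebra ℂ K] {n : ℕ}
  {L : Type} [Field L] [Algebra ℂ L] [Algebra L K] [IsScalarTower ℂ L K]
  [FiniteDimensional L K]

/-- **Varieties without logarithmic canonical forms.** -/
theorem one_fibreL (hbase : S_BASE) (hcurve : S_CURVE) (hA1 : S_A1)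
    [hess : Algebra.EssFiniteType ℂ K] {F : Fin (n + 1) → IntermediateField ℂ K}
    [∀ i, IsFF ℂ (F i)] (hsup : ⨆ i, F i = ⊤)
    (hK : Algebra.trdeg ℂ K = (n + 1 : ℕ)) {B : ∀ i, Set (Place ℂ (F i))}
    (hBf : ∀ i, (B i).Finite) {BL : Place ℂ L → Prop}
    (hB1 : ∀ (P : Place ℂ L) (Q : Place ℂ K) (e : ℕ), Over Q P e →
      BdK (E := fun i => F i) B Q → BL P)
    (hB2 : ∀ (P : Place ℂ L) (Q : Place ℂ K) (e : ℕ), Over Q P e → BL P →
      BdK (E := fun i => F i) B Q)
    {g : Fin (n + 1) → ℕ} (hg : ∀ i, ∀ y : F i, Transcendental ℂ y → (∀ P ∈ B i, 0 < P.ord y) →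
      g i ≤ finrank ℂ⟮y⟯ (F i)) {s : ℕ}
    (hs : ∀ l : Fin (n + 1), l.val < s → finrank (MF F L (Js _ l))
      (IntermediateField.adjoin (MF F L (Js _ l)) (F l : Set K)) < g l)
    (hpair : ∀ i j : Fin (n + 1), s ≤ i.val → s ≤ j.val → i ≠ j →
      finrank (MF F L (Js _ s))
        (IntermediateField.adjoin (MF F L (Js _ s)) (F i : Set K)) < g i ∨
      finrank (MF F L (Js _ s))
        (IntermediateField.adjoin (MF F L (Js _ s)) (F j : Set K)) < g j ∨
      finrank (MF F L (Js _ s)) K + 3 ≤ g i + g j)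
    (hz : LogGenusZero L (n + 1) BL) : IsA1Uniruled ℂ L (n + 1) BL := by
  have hL : Algebra.trdeg ℂ L = (n + 1 : ℕ) := Pool.Agent.Y184.NT.trdeg_below (K := K) hK
  have hessL : Algebra.EssFiniteType ℂ L := Pool.Agent.TH466.QG.ess_below (K := K)
  choose x hx hBx using fun i => exists_xB (hBf i)
  choose D0 hD0 using fun i => exists_D (hx i)
  have hD0' : ∀ i, D0 i ≠ 0 := by
    intro i h
    have := hD0 i
    rw [h] at this
    simp at this
  have halg := Pool.Agent.W619.X.alg_of_sup F hsup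
  have hb := Pool.Agent.W619.X.basis_of_alg F halg hK x hx
  obtain ⟨y, G, h, hy, hG, hh, hm, hreg, hval⟩ :=
    exists_traceL (L := L) (E := fun i => F i) hK hL hx hb hD0 B hB1
  have herase := a1_erase hbase hcurve hA1 hsup hK hx hD0 hBx hB2 hval
  by_cases hrat : ∃ l, ∀ f ∈ HL (D0 l) (B l), f = 0
  · -- a factor without logarithmic differentials
    obtain ⟨l, hl⟩ := hrat
    refine herase l fun f hf => ?_
    rw [Finset.prod_eq_zero (Finset.mem_univ l) (by rw [hl _ hf, map_zero]), mul_zero, map_zero]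
  push Not at hrat
  choose f0 hf0H hf0 using hrat
  have hm' := mem_MF_univ hm
  obtain ⟨τ0⟩ : Nonempty (K →ₐ[L] AlgebraicClosure L) :=
    ⟨IsAlgClosed.lift (R := L) (M := AlgebraicClosure L) (S := K)⟩
  have hT : IsScalarTower ℂ L (AlgebraicClosure L) := inferInstance
  have hτne : ∀ (τ : K →ₐ[L] AlgebraicClosure L) (z : K), z ≠ 0 → τ z ≠ 0 := fun τ z hz =>
    (_root_.map_ne_zero τ).2 hz
  -- the values of the forms
  have hθE : ∀ t, trForm y t G = t := by
    intro t
    have h1 : (Matrix.of fun i j => G i (y j) : Matrix (Fin (n + 1)) (Fin (n + 1)) L) = 1 := by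
      ext i j
      rw [Matrix.of_apply, hG, Matrix.one_apply]
    rw [trForm, h1, Matrix.det_one, one_mul]
  have hT0 : ∀ f : ∀ i, F i, (∀ i, f i ∈ HL (D0 i) (B i)) →
      Algebra.trace L K (h * ∏ i, algebraMap (F i) K (f i)) = 0 := by
    intro f hf
    have h1 := hz (trForm y (Algebra.trace L K (h * ∏ i, algebraMap (F i) K (f i))))
      ⟨trForm_pluri y _, fun P hP => (hreg f hf P hP).1, fun P hP hB => (hreg f hf P hP).2 hB⟩ G
    rwa [hθE] at h1
  have h0 := rel_zeroH (H := fun i => (HL (D0 i) (B i) : Set (F i))) (h := h)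
    (fun f hf => hT0 f hf) τ0
  have hsep := fun i => sep_FL (Ω := AlgebraicClosure L) hx hD0 hBf hBx (hg i)
  have h1 := Rl.chain h0 hsep (s := s)
    (fun l hl => lt_of_le_of_lt (count_le τ0 _ l) (hs l hl))
  have h2 := Rl.all_but_one h1 (fun τ => hτne τ h hh) g hsep f0 (fun l _ => hf0H l)
    (fun l τ => hτne τ (f0 l : K) (fun h => hf0 l (Subtype.ext h))) (by
      intro i j hi hj hij
      rw [mem_Js, not_lt] at hi hj
      rcases hpair i j hi hj hij with h3 | h3 | h3
      · exact Or.inl (lt_of_le_of_lt (count_le τ0 _ _) h3)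
      · exact Or.inr (Or.inl (lt_of_le_of_lt (count_le τ0 _ _) h3))
      · right; right
        rw [card_le']
        omega)
  rcases h2 with h2 | ⟨i0, h2⟩
  · exact (rel_univH hh hm' h2).elim
  · exact herase i0 fun f hf => rel_eraseH h2 f hf

/-- **Logarithmic forms and `A¹`-uniruledness.** -/
theorem tfaeL [hess : Algebra.EssFiniteType ℂ L] {N : ℕ} (hL : Algebra.trdeg ℂ L = N)
    {BL : Place ℂ L → Prop} (h : LogGenusZero L N BL → IsA1Uniruled ℂ L N BL) :
    [LogGenusZero L N BL, ¬ KodGe ℂ L N BL 0, ¬ Psef ℂ L N BL, IsA1Uniruled ℂ L N BL].TFAE := by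
  tfae_have 1 → 4 := h
  tfae_have 4 → 3 := fun h => not_psef_of_a1 hL h
  tfae_have 3 → 2 := fun h h' => h (psef_of_kodGe h')
  tfae_have 2 → 1 := by
    intro h ω hω D
    by_contra hne
    exact h ⟨1, one_pos, fun _ => ω, fun _ => hω, D, hne, algebraicIndependent_empty_type⟩
  tfae_finish

/-- pseudo-effectivity from forms -/
theorem psef_of_kodGe' {L : Type} [Field L] [Algebra ℂ L] {N d : ℕ} {BL : Place ℂ L → Prop}
    (h : KodGe ℂ L N BL d) : Psef ℂ L N BL := by
  obtain ⟨M, hM, ω, hω, D, hD, -⟩ := h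
  exact psef_of_kodGe ⟨M, hM, fun _ => ω 0, fun _ => hω 0, D, hD,
    algebraicIndependent_empty_type⟩

end

end Pool.Agent.N145.PL
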