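import Pool.Agent.N145.PL.Mul

/-!
Points of a curve which do not impose independent conditions on the logarithmic differentials.
-/

set_option autoImplicit false
set_option linter.overlappingInstances false
set_option linter.unusedSectionVars false

open Polynomial FF IsDedekindDomain IntermediateField

namespace Pool.Agent.N145.PL

open Pool.Agent.W603.LV Pool.Agent.W619.PQ Pool.Agent.N145.PC

section

variable {k F : Type} [Field k] [Field F] [Algebra k F] [CharZero k] [IsFF k F] [IsAlgClosed k]

omit [CharZero k] [IsFF k F] [IsAlgClosed k] in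
theorem bd_of_reg {x : F} {B : Set (Place k F)} (hBx : ∀ P ∈ B, P.ord x < 0) {P : Place k F}
    (hP : 0 ≤ P.ord x) : bd B P = 0 := by
  unfold bd
  rw [if_neg]
  intro h
  have := hBx P h
  omega

theorem lam_residue2 {x : F} {lam : F →ₗ[k] k} {B : Set (Place k F)}
    (hI : ∀ y ∈ BJ (k := k) x B, lam y = 0) (hx : Transcendental k x) {a : k} {y : F} {p : k[X]}
    (hp : eU p = SS (sh x lam) (sh_BI hI) (x * ((x - algebraMap k F a) * y))) :
    lam y = p.eval a := by
  have hx0 : x ≠ 0 := by
    rintro rfl
    exact hx isAlgebraic_zero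
  have h1 : x * ((x - algebraMap k F a) * y) = (x - algebraMap k F a) * (x * y) := by ring
  rw [h1] at hp
  have h2 := lam_residue hx (sh_BI hI) hp
  rw [← h2, sh_apply]
  congr 1
  field_simp

/-- **Duality.** If a linear relation holds between the values of the logarithmic differentials
`f dx` at the places `P ∈ S`, then there is a function whose poles are simple and are the places of
`S` which appear in the relation, and which vanishes on the boundary. -/
theorem dual2 {x : F} (hx : Transcendental k x) {D : Derivation k F F} (hD : D x = 1)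
    {B : Set (Place k F)} (hBx : ∀ P ∈ B, P.ord x < 0) (S : Finset (Place k F)) (a : Place k F → k)
    (ha : ∀ P ∈ S, P.ord (x - algebraMap k F (a P)) = 1) (c : Place k F → k)
    (hrel : ∀ f : F, f ∈ HL D B → f ≠ 0 →
      ∀ v : Place k F → k, (∀ P ∈ S, Ge P 1 (f - algebraMap k F (v P))) →
        ∑ P ∈ S, c P * v P = 0) :
    ∃ g : F, (∀ P ∈ S, c P ≠ 0 → P.ord g = -1) ∧ (∀ P : Place k F, P ∉ S → Ge P 0 g) ∧
      ∀ P ∈ B, Ge P 1 g := by
  classical
  have hfin := IsFF.finite hx
  have hFFx : IsFF k k⟮x⟯ := isFF_adj hx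
  have hD0 : D ≠ 0 := by
    rintro rfl
    simp at hD
  -- the data at each place
  have hz : ∀ P : Place k F, ∃ (z : F) (κ : k), P ∈ S → z ∈ BB (k := k) x ∧ Ge P 1 (z - 1) ∧
      (∀ w : Place k F, w ≠ P → 0 < w.ord (x - algebraMap k F (a P)) →
        Ge w (w.ord (x - algebraMap k F (a P))) z) ∧ κ ≠ 0 ∧
      ∀ (f : F), (∀ P : Place k F, 0 ≤ P.ord x → vo P D ≤ P.ord f) → f ≠ 0 → ∀ v : k,
        Ge P 1 (f - algebraMap k F v) → ∀ p : k[X], Algebra.trace k⟮x⟯ F (f * z) = px x p →
          p.eval (a P) = κ * v := by
    intro P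
    by_cases hPS : P ∈ S
    swap
    · exact ⟨0, 0, fun h => absurd h hPS⟩
    have haP := ha P hPS
    obtain ⟨z, hzB, hz1, hz2⟩ := exists_z hx haP
    obtain ⟨s, hs⟩ : ∃ s, s = x - algebraMap k F (a P) := ⟨_, rfl⟩
    rw [← hs] at haP hz2
    let xx : k⟮x⟯ := ⟨x, mem_adjoin_simple_self k x⟩
    let ss : k⟮x⟯ := xx - algebraMap k k⟮x⟯ (a P)
    have hss : algebraMap k⟮x⟯ F ss = s := by rw [hs]; rfl
    obtain ⟨e0, q, hq⟩ := exists_over (K := k⟮x⟯) P ⟨ss, by
      rw [hss]; omega⟩
    have hq1 : (e0 : ℤ) * q.ord ss = 1 := by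
      rw [← hq.2 ss, hss, haP]
    have hqs : q.ord ss = 1 := by
      have h1 : (0 : ℤ) < e0 := by exact_mod_cast hq.1
      have h2 : 0 < q.ord ss := by
        by_contra h3
        push Not at h3
        nlinarith
      nlinarith
    have he0 : e0 = 1 := by
      rw [hqs, mul_one] at hq1
      exact_mod_cast hq1
    have hw : ∀ (w : Place k F) (e : ℕ), Over w q e → w.ord s = e := by
      intro w e h
      rw [← hss, h.2, hqs, mul_one]
    have hwp : ∀ (w : Place k F) (e : ℕ), Over w q e → 0 < w.ord s := by
      intro w e h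
      rw [hw w e h]
      exact_mod_cast h.1
    have hfs := finite_support (k := k) s
    have hN : ∀ (w : Place k F) (e : ℕ), Over w q e →
        e ≤ ∑ w ∈ hfs.toFinset, (w.ord s).natAbs := by
      intro w e h
      have h1 := hw w e h
      have h2 := hwp w e h
      have h3 : w ∈ hfs.toFinset := by
        rw [hfs.mem_toFinset]
        change w.ord s ≠ 0
        omega
      have h4 := Finset.single_le_sum (f := fun w : Place k F => (w.ord s).natAbs)
        (fun _ _ => Nat.zero_le _) h3
      have h5 : (w.ord s).natAbs ≤ ∑ w ∈ hfs.toFinset, (w.ord s).natAbs := h4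
      omega
    have hzreg : ∀ (w : Place k F) (e : ℕ), Over w q e → Ge w 0 z := by
      intro w e h
      by_cases hwP : w = P
      · rw [hwP]
        have h3 := (hz1.mono (by norm_num : (0 : ℤ) ≤ 1)).add (Ge.one (P := P))
        simpa using h3
      · exact (hz2 w hwP (hwp w e h)).mono (hwp w e h).le
    -- the trace of `z`
    obtain ⟨κ, hκ⟩ := exists_const q (trace_reg q z hzreg)
    have hunit : ¬ Ge q 1 (Algebra.trace k⟮x⟯ F z) := by
      refine trace_unit q z ?_ hzreg P e0 hq hz1
      intro w e h
      have e1 : z ^ 2 - z = z * (z - 1) := by ring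
      rw [e1]
      by_cases hwP : w = P
      · subst hwP
        have h3 := (hzreg w e h).mul hz1
        refine h3.mono ?_
        have h4 := hw w e h
        omega
      · have h3 := hz2 w hwP (hwp w e h)
        have h4 : Ge w 0 (z - 1) := (hzreg w e h).sub Ge.one
        refine (h3.mul h4).mono ?_
        have h5 := hw w e h
        omega
    have hκ0 : κ ≠ 0 := by
      rintro rfl
      apply hunit
      rw [map_zero, sub_zero] at hκ
      exact hκ
    refine ⟨z, κ, fun _ => ⟨hzB, hz1, ?_, hκ0, ?_⟩⟩
    · rw [← hs]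
      exact hz2
    · intro f hf hf0 v hv p hp
      have hfz : ∀ (w : Place k F) (e : ℕ), Over w q e → Ge w 1 (f * z - algebraMap k F v * z) := by
        intro w e h
        by_cases hwP : w = P
        · subst hwP
          have e1 : f * z - algebraMap k F v * z = (f - algebraMap k F v) * z := by ring
          rw [e1]
          have h3 := hv.mul (hzreg w e h)
          simpa using h3
        · have h3 := hz2 w hwP (hwp w e h)
          have h4 : Ge w 1 (algebraMap k F v * z) := by
            refine ((Ge.const (P := w) v).mul h3).mono ?_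
            have := hwp w e h
            omega
          have h5 : Ge w 1 (f * z) := by
            have h6 : Ge w (w.ord f) f := Or.inr le_rfl
            refine (h6.mul h3).mono ?_
            -- `vo w D = 1 - w.ord s`
            have h7 := (ord_der w hD0 (f := s) (by have := hwp w e h; omega)).2
            have h8 : D s = 1 := by
              rw [hs, map_sub, hD, Derivation.map_algebraMap, sub_zero]
            rw [h8, w.ord_one] at h7
            have h10 : 0 ≤ w.ord x := by
              have h11 := hwp w e h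
              have h12 : Ge w 1 s := Or.inr (by omega)
              have h13 := (h12.mono (by norm_num : (0 : ℤ) ≤ 1)).add (Ge.const (P := w) (a P))
              rw [hs, sub_add_cancel] at h13
              rcases h13 with h14 | h14
              · rw [h14, w.ord_zero]
              · exact h14
            have h9 := hf w h10
            omega
          exact h5.sub h4
      have h10 := trace_nil q _ _ hN hfz
      have h11 : Algebra.trace k⟮x⟯ F (f * z - algebraMap k F v * z) =
          px x p - algebraMap k k⟮x⟯ v * Algebra.trace k⟮x⟯ F z := by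
        rw [map_sub, hp]
        congr 1
        have h12 := trace_mul_left (algebraMap k k⟮x⟯ v) z
        exact h12
      rw [h11] at h10
      have h12 : Ge q 1 (px x p - algebraMap k k⟮x⟯ (p.eval (a P))) := by
        refine ge_sub_eval q (x := xx) ?_ p
        exact Or.inr (by rw [← hqs])
      have h13 : Ge q 1 (algebraMap k k⟮x⟯ (p.eval (a P) - κ * v)) := by
        have h14 : algebraMap k k⟮x⟯ (p.eval (a P) - κ * v) =
            (px x p - algebraMap k k⟮x⟯ v * Algebra.trace k⟮x⟯ F z) -
            (px x p - algebraMap k k⟮x⟯ (p.eval (a P))) +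
            algebraMap k k⟮x⟯ v * (Algebra.trace k⟮x⟯ F z - algebraMap k k⟮x⟯ κ) := by
          rw [map_sub, map_mul]
          ring
        rw [h14]
        have h15 := (Ge.const (P := q) v).mul hκ
        refine (h10.sub h12).add ?_
        simpa using h15
      have h16 := const_eq_zero q h13
      exact sub_eq_zero.1 h16
  choose z κ hz using hz
  -- the function with simple poles
  obtain ⟨y, hy⟩ : ∃ y : Place k F → F, y = fun P => z P / (x - algebraMap k F (a P)) := ⟨_, rfl⟩
  have hsne : ∀ b : k, x - algebraMap k F b ≠ 0 := sub_const_ne hx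
  have hyz : ∀ P, (x - algebraMap k F (a P)) * y P = z P := by
    intro P
    rw [hy]
    exact mul_div_cancel₀ _ (hsne _)
  -- regularity of `y P` at the other places
  have hyreg : ∀ P ∈ S, ∀ w : Place k F, 0 ≤ w.ord x → w ≠ P → Ge w 0 (y P) := by
    intro P hP w hwx hwP
    obtain ⟨h1, -, h3, -⟩ := hz P hP
    have h5 : Ge w 0 (x - algebraMap k F (a P)) := Ge.sub (Or.inr hwx) (Ge.const _)
    have h6 := h5.resolve_left (hsne _)
    refine Ge.of_mul' (h := x - algebraMap k F (a P)) (m := w.ord (x - algebraMap k F (a P)))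
      (hsne _) rfl ?_
    rw [hyz]
    rcases h6.eq_or_lt with h7 | h7
    · rw [← h7]
      simpa using h1 w hwx
    · simpa using h3 w hwP h7
  have hypole : ∀ P ∈ S, P.ord (y P) = -1 := by
    intro P hP
    obtain ⟨-, h2, -⟩ := hz P hP
    have h3 : z P ≠ 0 ∧ P.ord (z P) = 0 := by
      by_cases h4 : z P - 1 = 0
      · rw [sub_eq_zero.1 h4]
        exact ⟨one_ne_zero, P.ord_one⟩
      · have h5 := h2.resolve_left h4
        have h6 := P.ord_add_eq (f := 1) (g := z P - 1) one_ne_zero h4 (by rw [P.ord_one]; omega)
        rwa [add_sub_cancel, P.ord_one] at h6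
    rw [hy]
    change P.ord (z P / (x - algebraMap k F (a P))) = -1
    rw [P.ord_div h3.1 (hsne _), h3.2, ha P hP]
    norm_num
  obtain ⟨Y, hY⟩ : ∃ Y : F, Y = ∑ P ∈ S, algebraMap k F (c P / κ P) * y P := ⟨_, rfl⟩
  have hx0 : x ≠ 0 := by
    rintro rfl
    exact hx isAlgebraic_zero
  have hxS' : ∀ P ∈ S, 0 ≤ P.ord x := by
    intro P hP
    by_contra hcon
    push Not at hcon
    have h1 := ha P hP
    by_cases h0 : a P = 0
    · rw [h0, map_zero, sub_zero] at h1
      omega
    · have h2 := P.ord_add_eq (f := x) (g := -algebraMap k F (a P)) hx0 (by simpa using h0) (by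
        rw [P.ord_neg, P.ord_const h0]; exact hcon)
      rw [← sub_eq_add_neg] at h2
      omega
  have hmem : Y ∈ BB (k := k) x ⊔ BJ (k := k) x B := by
    by_contra hcon
    obtain ⟨lam, hlam, hle⟩ := Submodule.exists_le_ker_of_notMem hcon
    have hB : ∀ y ∈ BB (k := k) x, lam y = 0 := fun y hy => hle (Submodule.mem_sup_left hy)
    have hI : ∀ y ∈ BJ (k := k) x B, lam y = 0 := fun y hy => hle (Submodule.mem_sup_right hy)
    have hlne : lam ≠ 0 := by
      rintro rfl
      exact hlam rfl
    obtain ⟨f, hf0, hf⟩ := exists_mult2 hI hx hB hlne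
    have hfreg := mult_regular2 hI hx D hD hB hBx hf0 hf
    have hfreg' : ∀ P : Place k F, 0 ≤ P.ord x → vo P D ≤ P.ord f := by
      intro P hP
      have h1 := hfreg P
      rwa [bd_of_reg hBx hP, sub_zero] at h1
    -- the values of `f`
    have hval : ∀ P : Place k F, ∃ v : k, P ∈ S → Ge P 1 (f - algebraMap k F v) := by
      intro P
      by_cases hP : P ∈ S
      · have h1 : vo P D = 0 := by
          have h7 := (ord_der P hD0 (f := x - algebraMap k F (a P)) (by
            rw [ha P hP]; norm_num)).2
          have h8 : D (x - algebraMap k F (a P)) = 1 := by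
            rw [map_sub, hD, Derivation.map_algebraMap, sub_zero]
          rw [h8, P.ord_one, ha P hP] at h7
          omega
        have h2 := hfreg' P (hxS' P hP)
        rw [h1] at h2
        obtain ⟨v, hv⟩ := exists_const P (f := f) (Or.inr h2)
        exact ⟨v, fun _ => hv⟩
      · exact ⟨0, fun h => absurd h hP⟩
    choose v hv using hval
    have h1 := hrel f (fun P => Or.inr (hfreg P)) hf0 v hv
    apply hlam
    have h2 : ∀ P ∈ S, lam (y P) = κ P * v P := by
      intro P hP
      obtain ⟨h3, -, -, -, h5⟩ := hz P hP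
      obtain ⟨p, hp⟩ := S2_of_BB hI hx0 hB h3
      have h6 : Algebra.trace k⟮x⟯ F (f * z P) = px x p := by
        apply iota_injective hx
        rw [hf, iota_px, hp]
      rw [← h5 f hfreg' hf0 (v P) (hv P hP) p h6]
      refine lam_residue2 hI hx ?_
      rw [hyz, hp]
    rw [hY, map_sum, ← h1]
    refine Finset.sum_congr rfl fun P hP => ?_
    obtain ⟨-, -, -, hκ0, -⟩ := hz P hP
    rw [← Algebra.smul_def, map_smul, smul_eq_mul, h2 P hP]
    field_simp
  obtain ⟨b, hb, g, hg, hbg⟩ := Submodule.mem_sup.1 hmem
  have hge : g = Y - b := by rw [← hbg]; ring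
  have hxS := hxS'
  have hgJ : ∀ P : Place k F, P.ord x < 0 → Ge P 0 g := fun P hP =>
    (hg P hP).mono (bd_nonneg B P)
  refine ⟨g, fun P hP hc => ?_, fun P hP => ?_, fun P hP => ?_⟩
  · -- a simple pole
    obtain ⟨-, -, -, hκ0, -⟩ := hz P hP
    have h1 : Y = algebraMap k F (c P / κ P) * y P +
        ∑ Q ∈ S.erase P, algebraMap k F (c Q / κ Q) * y Q := by
      rw [hY, Finset.add_sum_erase S (fun Q => algebraMap k F (c Q / κ Q) * y Q) hP]
    have h2 : Ge P 0 (∑ Q ∈ S.erase P, algebraMap k F (c Q / κ Q) * y Q) := by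
      refine Ge.sum _ _ fun Q hQ => ?_
      have h3 := hyreg Q (Finset.mem_of_mem_erase hQ) P (hxS P hP) (Finset.ne_of_mem_erase hQ).symm
      have h4 := (Ge.const (P := P) (c Q / κ Q)).mul h3
      simpa using h4
    have h3 : Ge P 0 (∑ Q ∈ S.erase P, algebraMap k F (c Q / κ Q) * y Q - b) :=
      h2.sub (hb P (hxS P hP))
    have hck : c P / κ P ≠ 0 := div_ne_zero hc hκ0
    have hy0 : y P ≠ 0 := by
      intro h
      have h4 := hypole P hP
      rw [h, P.ord_zero] at h4
      omega
    have h4 : P.ord (algebraMap k F (c P / κ P) * y P) = -1 := by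
      rw [P.ord_mul (by simpa using hck) hy0, P.ord_const hck, hypole P hP]
      norm_num
    have h5 : g = algebraMap k F (c P / κ P) * y P +
        (∑ Q ∈ S.erase P, algebraMap k F (c Q / κ Q) * y Q - b) := by
      rw [hge, h1]
      ring
    have h6 : algebraMap k F (c P / κ P) * y P ≠ 0 := mul_ne_zero (by simpa using hck) hy0
    rw [h5]
    by_cases h7 : ∑ Q ∈ S.erase P, algebraMap k F (c Q / κ Q) * y Q - b = 0
    · rw [h7, add_zero, h4]
    · rw [(P.ord_add_eq h6 h7 (by rw [h4]; have := h3.resolve_left h7; omega)).2, h4]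
  · by_cases hPx : P.ord x < 0
    · exact hgJ P hPx
    · push Not at hPx
      rw [hge]
      refine Ge.sub ?_ (hb P hPx)
      rw [hY]
      refine Ge.sum _ _ fun Q hQ => ?_
      have h3 := hyreg Q hQ P hPx (fun h => hP (by rw [h]; exact hQ))
      have h4 := (Ge.const (P := P) (c Q / κ Q)).mul h3
      simpa using h4

  · have h1 := hg P (hBx P hP)
    unfold bd at h1
    rwa [if_pos hP] at h1

end

end Pool.Agent.N145.PL
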