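import Pool.Agent.N145.PL.Frame

/-!
The coordinate on the geometric generic fibre of the projection to all factors except one.
-/

set_option autoImplicit false
set_option linter.overlappingInstances false
set_option linter.unusedSectionVars false
set_option linter.unusedVariables false
set_option maxHeartbeats 4000000
set_option synthInstance.maxHeartbeats 400000

open Polynomial FF IsDedekindDomain IntermediateField Module

namespace Pool.Agent.N145.PL

open Pool.Agent.W603.LV Pool.Agent.W619.PQ Pool.Agent.N145.PC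
open Pool.Agent.R882.GL (trace_fib)

section

variable {K : Type} [Field K] [Algebra ℂ K] {n : ℕ} {F : Fin (n + 1) → IntermediateField ℂ K}
  [∀ i, IsFF ℂ (F i)]

/-- **The coordinate on the geometric generic fibre.** -/
theorem fib_coord (hbase : S_BASE) (hcurve : S_CURVE) [hess : Algebra.EssFiniteType ℂ K]
    (hsup : ⨆ i, F i = ⊤) (hK : Algebra.trdeg ℂ K = (n + 1 : ℕ)) (i0 : Fin (n + 1))
    {x0 : F i0} (hx0 : Transcendental ℂ x0) {D0 : Derivation ℂ (F i0) (F i0)} (hD0 : D0 x0 = 1)
    {B0 : Set (Place ℂ (F i0))} (hB0 : ∀ P ∈ B0, P.ord x0 < 0)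
    (E' : IntermediateField (BB' F i0) K) [FiniteDimensional E' K]
    {t : Fin n → K} (ht : ∀ j, t j ∈ BB' F i0) {ξ : K} (hξM : ξ ∈ E')
    (hξ : ¬ IsAlgebraic (BB' F i0) ξ)
    (hZ : IsTranscendenceBasis ℂ (Fin.append t (fun _ : Fin 1 => ξ)))
    {Ef : Fin (n + 1) → Derivation ℂ K K}
    (hEf : ∀ i j, Ef i (Fin.append t (fun _ : Fin 1 => ξ) j) = if i = j then 1 else 0)
    (htr : ∀ φ ∈ HL D0 B0, Algebra.trace E' K (Ef (Fin.last n) (x0 : K) * (φ : K)) = 0)
    (Λ E : Type) [Field Λ] [Field E] [Algebra ℂ Λ] [Algebra ℂ E] [Algebra Λ E] [Algebra K E]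
    [Algebra (BB' F i0) Λ] [IsScalarTower ℂ Λ E] [IsScalarTower ℂ K E]
    [Algebra.IsAlgebraic (BB' F i0) Λ] [IsAlgClosed Λ] [hFF : IsFF Λ E]
    (hBΛ : ∀ z (hz : z ∈ BB' F i0),
      algebraMap Λ E (algebraMap (BB' F i0) Λ ⟨z, hz⟩) = algebraMap K E z)
    (hgenF : IntermediateField.adjoin Λ (Set.range (algebraMap K E)) = ⊤) :
    ∃ s : E, Transcendental Λ s ∧
      (∀ e ∈ E', algebraMap K E e ∈ IntermediateField.adjoin Λ {s}) ∧
      ∀ Q : Place Λ E, (∃ P ∈ B0, ∃ e : ℕ, 0 < e ∧
        ∀ v : F i0, Q.ord (algebraMap K E (v : K)) = e * P.ord v) → Q.ord s < 0 := by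
  classical
  have halg := Pool.Agent.W619.X.alg_of_sup F hsup
  have hTB : IsScalarTower (BB' F i0) Λ E :=
    IsScalarTower.of_algebraMap_eq fun z => (hBΛ z z.2).symm
  have hΛ0 : CharZero Λ := charZero_of_injective_algebraMap (algebraMap ℂ Λ).injective
  have hBc : CharZero (BB' F i0) :=
    charZero_of_injective_algebraMap (algebraMap ℂ (BB' F i0)).injective
  have htransc : ∀ z : K, ¬ IsAlgebraic (BB' F i0) z → Transcendental Λ (algebraMap K E z) := by
    intro z hz h
    apply hz
    have h1 : IsAlgebraic (BB' F i0) (algebraMap K E z) := h.restrictScalars (BB' F i0)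
    exact (isAlgebraic_algebraMap_iff (R := BB' F i0) (algebraMap K E).injective).1 h1
  have hcl' : ∀ z : K, IsIntegral (BB' F i0) z → ∃ y : BB' F i0,
      algebraMap (BB' F i0) K y = z := fun z hz =>
    ⟨⟨z, closed_BB' hsup hK i0 z hz.isAlgebraic⟩, rfl⟩
  have hξF := htransc ξ hξ
  obtain ⟨D, hD⟩ := exists_D (k := Λ) hξF
  have hDne : D ≠ 0 := by
    intro h
    rw [h] at hD
    exact zero_ne_one hD
  -- the derivation of the fibre
  have happ : ∀ l : Fin n, Fin.append t (fun _ : Fin 1 => ξ) l.castSucc = t l := fun l =>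
    Fin.append_left t _ l
  have happ' : Fin.append t (fun _ : Fin 1 => ξ) (Fin.last n) = ξ :=
    Fin.append_right t (fun _ : Fin 1 => ξ) 0
  have hlast : ∀ z : K, D (algebraMap K E z) = algebraMap K E (Ef (Fin.last n) z) := by
    intro z
    have h1 := Pool.Agent.W73.PG.PULL.chain (L := E) _ hZ Ef hEf (D.restrictScalars ℂ) z
    rw [Fin.sum_univ_castSucc, Finset.sum_eq_zero, zero_add] at h1
    · rw [happ'] at h1
      change D (algebraMap K E z) = D (algebraMap K E ξ) * algebraMap K E _ at h1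
      rw [hD, one_mul] at h1
      exact h1
    · intro l _
      rw [happ]
      change D (algebraMap K E (t l)) * _ = 0
      rw [← hBΛ (t l) (ht l), Derivation.map_algebraMap, zero_mul]
  obtain ⟨X, hX⟩ : ∃ X, X = algebraMap K E (x0 : K) := ⟨_, rfl⟩
  have hXt : Transcendental Λ X := by
    rw [hX]
    exact htransc _ (not_alg F halg hK i0 hx0)
  have hDx : D X ≠ 0 := by
    intro h
    obtain ⟨w, hw⟩ := const_of_der (k := Λ) hDne h
    apply hXt
    rw [hw]
    exact isAlgebraic_algebraMap w
  -- the places of the fibre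
  have hψ : ∀ y : F i0, algebraMap (F i0) E y = algebraMap K E (y : K) := fun y => rfl
  have hgen' : IntermediateField.adjoin Λ (Set.range (algebraMap (F i0) E)) = ⊤ := by
    rw [eq_top_iff, ← hgenF, IntermediateField.adjoin_le_iff]
    rintro _ ⟨z, rfl⟩
    have h1 : ⨆ i, F i ≤ ((IntermediateField.adjoin Λ
        (Set.range (algebraMap (F i0) E))).restrictScalars ℂ).comap
          (IsScalarTower.toAlgHom ℂ K E) := by
      refine iSup_le fun i y hy => ?_
      change algebraMap K E y ∈ IntermediateField.adjoin Λ (Set.range (algebraMap (F i0) E))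
      by_cases hi : i = i0
      · subst hi
        exact IntermediateField.subset_adjoin _ _ ⟨⟨y, hy⟩, rfl⟩
      · rw [← hBΛ y (le_BB' F hi hy)]
        exact IntermediateField.algebraMap_mem _ _
    exact h1 (by rw [hsup]; trivial)
  -- the traces
  obtain ⟨FE, hFE⟩ : ∃ FE : IntermediateField Λ E,
    FE = IntermediateField.adjoin Λ (algebraMap K E '' E') := ⟨_, rfl⟩
  obtain ⟨hfin, htrace⟩ := trace_fib (F := E) hcl' hgenF E' FE hFE
  have hessF : Algebra.EssFiniteType Λ E := hFF.ess
  have hessE : Algebra.EssFiniteType Λ FE := Pool.Agent.TH466.QG.ess_below (K := E)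
  have htrE : Algebra.trdeg Λ FE = 1 := by
    have h1 := trdeg_add_eq Λ FE (A := E)
    have h2 : Algebra.trdeg FE E = 0 := trdeg_eq_zero
    rw [h2, add_zero, hFF.trdeg] at h1
    exact h1
  have hFFE : IsFF Λ FE := ⟨hessE, htrE⟩
  have hmemFE : ∀ e : K, e ∈ E' → algebraMap K E e ∈ FE := by
    intro e he
    rw [hFE]
    exact IntermediateField.subset_adjoin _ _ ⟨e, he, rfl⟩
  obtain ⟨B', hB'⟩ : ∃ B' : Set (Place Λ E),
    B' = above (k := ℂ) (F0 := F i0) (Λ := Λ) (E := E) B0 := ⟨_, rfl⟩
  have hzero : ∀ g ∈ HL D B', Algebra.trace FE E g = 0 := by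
    intro g hg
    by_cases hg0 : g = 0
    · rw [hg0, map_zero]
    have hbc := hbase ℂ (F i0) Λ E hgen'
      (fun y hy => htransc _ (not_alg F halg hK i0 hy)) x0 hx0 D0 hD0 B0 hB0
      ((D X)⁻¹ • D) (by
        rw [Derivation.smul_apply, smul_eq_mul, hψ, ← hX]
        exact inv_mul_cancel₀ hDx) (g / D X) (by
        intro Q
        right
        rw [vo_smul Q hDne (inv_ne_zero hDx), Q.ord_inv, Q.ord_div hg0 hDx, ← hB']
        have := (hg Q).resolve_left hg0
        linarith)
    have h9 : ∀ y : E, y ∈ Submodule.span Λ (algebraMap (F i0) E '' (HL D0 B0 : Set (F i0))) →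
        Algebra.trace FE E (D X * y) = 0 := by
      intro y hy
      induction hy using Submodule.span_induction with
      | zero => rw [mul_zero, map_zero]
      | add u v _ _ hu hv => rw [mul_add, map_add, hu, hv, add_zero]
      | smul a u _ hu =>
        have h10 : D X * a • u = (algebraMap Λ FE a) • (D X * u) := by
          rw [Algebra.smul_def, Algebra.smul_def, ← IsScalarTower.algebraMap_apply Λ FE E]
          ring
        rw [h10, map_smul, hu, smul_zero]
      | mem y hy =>
        obtain ⟨w, hw, rfl⟩ := hy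
        apply Subtype.ext
        have h10 : D X * algebraMap (F i0) E w =
            algebraMap K E (Ef (Fin.last n) (x0 : K) * (w : K)) := by
          rw [hψ, hX, hlast, map_mul]
        rw [h10, htrace, htr w hw]
        simp
    have h10 := h9 _ hbc
    rwa [mul_div_cancel₀ _ hDx] at h10
  obtain ⟨s, hs, hsB⟩ := hcurve Λ FE E D ⟨algebraMap K E ξ, hmemFE ξ hξM⟩ hD B' hzero
  have hsF : Transcendental Λ ((s : FE) : E) := by
    intro h
    have h1 : IsAlgebraic Λ s :=
      (isAlgebraic_algebraMap_iff (R := Λ) (algebraMap FE E).injective).1 h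
    have h2 : Algebra.IsAlgebraic Λ (IntermediateField.adjoin Λ {s}) :=
      IntermediateField.isAlgebraic_adjoin_simple h1.isIntegral
    have h3 : IsAlgebraic Λ (⟨algebraMap K E ξ, hmemFE ξ hξM⟩ : FE) := by
      have h4 : (⟨algebraMap K E ξ, hmemFE ξ hξM⟩ : FE) ∈ IntermediateField.adjoin Λ {s} := by
        rw [hs]
        trivial
      have h5 := h2.isAlgebraic ⟨_, h4⟩
      exact (isAlgebraic_algebraMap_iff (R := Λ)
        (algebraMap (IntermediateField.adjoin Λ {s}) FE).injective).2 h5
    exact hξF ((isAlgebraic_algebraMap_iff (R := Λ) (algebraMap FE E).injective).2 h3)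
  refine ⟨((s : FE) : E), hsF, fun e he => ?_, ?_⟩
  · have h1 : (⟨algebraMap K E e, hmemFE _ he⟩ : FE) ∈ IntermediateField.adjoin Λ {s} := by
      rw [hs]
      trivial
    have h2 : (IntermediateField.adjoin Λ {s}).map FE.val =
        IntermediateField.adjoin Λ {((s : FE) : E)} := by
      rw [IntermediateField.adjoin_map, Set.image_singleton]
      rfl
    rw [← h2]
    exact ⟨_, h1, rfl⟩
  · rintro Q ⟨P, hP, e, he, hv⟩
    refine hsB Q ?_
    rw [hB']
    exact ⟨P, hP, e, he, hv⟩

end

end Pool.Agent.N145.PL
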