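import Pool.Agent.N145.PL.Erase
import Pool.Agent.W73.PG.PULL

/-!
`A¹`-uniruledness from the vanishing of the traces to the image in the product with all factors
except one.
-/

set_option autoImplicit false
set_option linter.overlappingInstances false
set_option linter.unusedSectionVars false
set_option linter.unusedVariables false
set_option maxHeartbeats 4000000
set_option synthInstance.maxHeartbeats 400000

open Polynomial FF IsDedekindDomain IntermediateField Module

namespace Pool.Agent.N145.PL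

open Pool.Agent.W603.LV Pool.Agent.W619.PQ Pool.Agent.N145.PC

section

/-- the trace only depends on the subfield -/
theorem trace_zero_of_mem {L B K : Type} [Field L] [Field B] [Field K] [Algebra L K] [Algebra B K]
    (M : IntermediateField L K) (M' : IntermediateField B K) (h : ∀ z, z ∈ M ↔ z ∈ M') {z : K}
    (hz : Algebra.trace M K z = 0) : Algebra.trace M' K z = 0 := by
  let e : M ≃+* M' :=
    { toFun := fun a => ⟨a, (h a).1 a.2⟩
      invFun := fun a => ⟨a, (h a).2 a.2⟩
      left_inv := fun a => rfl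
      right_inv := fun a => rfl
      map_mul' := fun a b => rfl
      map_add' := fun a b => rfl }
  have h1 := Algebra.trace_eq_of_ringEquiv e (by
    ext a
    rfl) z
  rw [← h1, hz, map_zero]

variable {K : Type} [Field K] [Algebra ℂ K] {n : ℕ} {F : Fin (n + 1) → IntermediateField ℂ K}
  [∀ i, IsFF ℂ (F i)] {L : Type} [Field L] [Algebra ℂ L] [Algebra L K] [IsScalarTower ℂ L K]
  [FiniteDimensional L K] {B : ∀ i, Set (Place ℂ (F i))}

/-- **The trace relation gives `A¹`-uniruledness.** -/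
theorem a1_erase (hbase : S_BASE) (hcurve : S_CURVE) (hA1 : S_A1)
    [hess : Algebra.EssFiniteType ℂ K] (hsup : ⨆ i, F i = ⊤)
    (hK : Algebra.trdeg ℂ K = (n + 1 : ℕ)) {x : ∀ i, F i} (hx : ∀ i, Transcendental ℂ (x i))
    {D0 : ∀ i, Derivation ℂ (F i) (F i)} (hD0 : ∀ i, D0 i (x i) = 1)
    (hBx : ∀ i, ∀ P ∈ B i, P.ord (x i) < 0) {BL : Place ℂ L → Prop}
    (hBL : ∀ (P : Place ℂ L) (Q : Place ℂ K) (e : ℕ), Over Q P e → BL P →
      BdK (E := fun i => F i) B Q) {h : K}
    (hval : ∀ (M : IntermediateField L K) (f : ∀ i, F i) (D : Fin (n + 1) → Derivation ℂ M M)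
        (D' : Fin (n + 1) → Derivation ℂ K K),
        (∀ i g, D' i (algebraMap M K g) = algebraMap M K (D i g)) →
        ∃ a : M, extForm 1 D0 x f D' = algebraMap M K a * (h * ∏ i, algebraMap (F i) K (f i)))
    (i0 : Fin (n + 1)) (h2 : ∀ f : ∀ i, F i, f i0 ∈ HL (D0 i0) (B i0) →
      Algebra.trace (MF F L (Finset.univ.erase i0)) K (h * ∏ i, algebraMap (F i) K (f i)) = 0) :
    Pool.Agent.W619.PL.IsA1Uniruled ℂ L (n + 1) BL := by
  classical
  have halg := Pool.Agent.W619.X.alg_of_sup F hsup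
  have hbas := Pool.Agent.W619.X.basis_of_alg F halg hK x hx
  have hB := trdeg_BB' F halg hK i0
  have hL : Algebra.trdeg ℂ L = (n + 1 : ℕ) := Pool.Agent.Y184.NT.trdeg_below (K := K) hK
  have hessL : Algebra.EssFiniteType ℂ L := Pool.Agent.TH466.QG.ess_below (K := K)
  -- the image in the product with the other factors
  obtain ⟨M, hM⟩ : ∃ M, M = MF F L (Finset.univ.erase i0) := ⟨_, rfl⟩
  have hle : BB' F i0 ≤ M.restrictScalars ℂ := by
    refine iSup_le fun j y hy => ?_
    rw [mem_restrictScalars, hM]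
    exact mem_MJ (E := fun i => F i) _ (Finset.mem_erase.2 ⟨j.2, Finset.mem_univ _⟩) ⟨y, hy⟩
  have hfinM : FiniteDimensional (M.restrictScalars ℂ : IntermediateField ℂ K) K := by
    have h1 : FiniteDimensional M K := inferInstance
    exact h1
  obtain ⟨E', hE'⟩ : ∃ E' : IntermediateField (BB' F i0) K,
      E' = IntermediateField.extendScalars hle := ⟨_, rfl⟩
  have hE'm : ∀ z : K, z ∈ M ↔ z ∈ E' := by
    intro z
    rw [hE', IntermediateField.mem_extendScalars, mem_restrictScalars]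
  have hfinE : FiniteDimensional E' K := by
    have h1 : FiniteDimensional M K := inferInstance
    rw [hE']
    exact h1
  obtain ⟨t, ξ, ht, hξM, hξ, hZ, DE, Ef, hlift, hEfB, hEf⟩ :=
    exists_frame hK (BB' F i0) hB (M.restrictScalars ℂ) hle
  -- the determinant
  obtain ⟨dt, hdt⟩ : ∃ dt, dt = (Matrix.of fun j i => Ef j (algebraMap (F i) K (x i)) :
    Matrix (Fin (n + 1)) (Fin (n + 1)) K).det := ⟨_, rfl⟩
  have hdt0 : dt ≠ 0 := by
    obtain ⟨D1, hD1⟩ := extForm_ne (K := K) 1 D0 x (fun _ => 1) (fun _ => one_ne_zero)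
      (fun i => by rw [hD0]; exact one_ne_zero) hbas
    intro h0
    apply hD1
    rw [Pool.Agent.Y172.pluri_coord hZ hEf (prod_pluri x D0 _) D1, prod_val hD0, ← hdt, h0,
      mul_zero, mul_zero]
  have hmB : ∀ i, i ≠ i0 → ∀ z : F i, (z : K) ∈ BB' F i0 := fun i hi z => le_BB' F hi z.2
  obtain ⟨ε, hε0, hε⟩ := det_one (A := (Matrix.of fun j i => Ef j (algebraMap (F i) K (x i)) :
    Matrix (Fin (n + 1)) (Fin (n + 1)) K)) (i0 := i0) (by
      intro j hj
      rw [Matrix.of_apply]
      exact hEfB _ (hmB j hj _))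
  rw [← hdt, Matrix.of_apply] at hε
  obtain ⟨mi, hmi⟩ : ∃ mi, mi = ((Matrix.of fun j i => Ef j (algebraMap (F i) K (x i)) :
    Matrix (Fin (n + 1)) (Fin (n + 1)) K).submatrix Fin.castSucc i0.succAbove).det := ⟨_, rfl⟩
  rw [← hmi] at hε
  have hmi0 : mi ≠ 0 := by
    intro h1
    apply hdt0
    rw [hε, h1, mul_zero]
  have hmiM : mi ∈ M := by
    rw [hmi, Matrix.det_apply]
    refine sum_mem fun σ _ => ?_
    rw [Units.smul_def, zsmul_eq_mul]
    refine mul_mem (intCast_mem _ _) (prod_mem fun j _ => ?_)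
    rw [Matrix.submatrix_apply, Matrix.of_apply]
    have h3 : ((x (i0.succAbove j) : F (i0.succAbove j)) : K) ∈ M.restrictScalars ℂ :=
      hle (hmB _ (Fin.succAbove_ne i0 j) _)
    have h4 := hlift (σ j).castSucc ⟨_, h3⟩
    change Ef (σ j).castSucc ((x (i0.succAbove j) : F (i0.succAbove j)) : K) ∈ M
    rw [h4]
    exact (DE (σ j).castSucc ⟨_, h3⟩).2
  -- the value
  have hfin : ∀ φ ∈ HL (D0 i0) (B i0),
      Algebra.trace E' K (Ef (Fin.last n) (x i0 : K) * (φ : K)) = 0 := by
    intro φ hφ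
    obtain ⟨f, hf⟩ : ∃ f : ∀ i, F i, f = Function.update (fun _ => 1) i0 φ := ⟨_, rfl⟩
    have hf0 : f i0 = φ := by rw [hf, Function.update_self]
    have hprod : ∏ i, algebraMap (F i) K (f i) = (φ : K) := by
      rw [← Finset.mul_prod_erase _ _ (Finset.mem_univ i0), hf0, Finset.prod_eq_one, mul_one]
      · rfl
      · intro i hi
        rw [hf, Function.update_of_ne (Finset.ne_of_mem_erase hi), map_one]
    obtain ⟨a, ha⟩ := hval M f (fun i => (DE i : Derivation ℂ M M)) Ef (fun i g => hlift i g)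
    have h3 : Algebra.trace M K (h * ∏ i, algebraMap (F i) K (f i)) = 0 := by
      subst hM
      exact h2 f (by rw [hf0]; exact hφ)
    have h4 : Algebra.trace M K (extForm 1 D0 x f Ef) = 0 := by
      rw [ha, ← Algebra.smul_def, map_smul, h3, smul_zero]
    rw [prod_val hD0, hprod, ← hdt, hε] at h4
    have hc : ((ε : K) * mi) ∈ M := mul_mem (intCast_mem _ _) hmiM
    have hc0 : (⟨(ε : K) * mi, hc⟩ : M) ≠ 0 := by
      intro h5
      have h6 : (ε : K) * mi = 0 := congrArg Subtype.val h5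
      rcases mul_eq_zero.1 h6 with h7 | h7
      · have : CharZero K := charZero_of_injective_algebraMap (algebraMap ℂ K).injective
        exact hε0 (by exact_mod_cast h7)
      · exact hmi0 h7
    have h5 : (φ : K) * ((ε : K) * Ef (Fin.last n) (algebraMap (F i0) K (x i0)) * mi) =
        (⟨(ε : K) * mi, hc⟩ : M) • (Ef (Fin.last n) (x i0 : K) * (φ : K)) := by
      rw [Algebra.smul_def]
      change (φ : K) * ((ε : K) * Ef (Fin.last n) (x i0 : K) * mi) = ((ε : K) * mi) * _
      ring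
    rw [h5, map_smul, smul_eq_mul] at h4
    exact trace_zero_of_mem M E' hE'm ((mul_eq_zero.1 h4).resolve_left hc0)
  -- the fibre
  have hcl' : ∀ z : K, IsIntegral (BB' F i0) z → ∃ y : BB' F i0,
      algebraMap (BB' F i0) K y = z := fun z hz =>
    ⟨⟨z, closed_BB' hsup hK i0 z hz.isAlgebraic⟩, rfl⟩
  obtain ⟨Bf, hBf⟩ : ∃ Bf, Bf = BB' F i0 := ⟨_, rfl⟩
  let Ω := AlgebraicClosure K
  let Λ : IntermediateField (BB' F i0) Ω := algebraicClosure (BB' F i0) Ω
  have hΛ : IsAlgClosed Λ := (algebraicClosure.isAlgClosure (BB' F i0) Ω).isAlgClosed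
  have hΛalg : Algebra.IsAlgebraic (BB' F i0) Λ := inferInstance
  let FF : IntermediateField Λ Ω := IntermediateField.adjoin Λ (Set.range (algebraMap K Ω))
  have hTL : IsScalarTower ℂ (BB' F i0) Ω := IsScalarTower.of_algebraMap_eq fun z => by
    rw [IsScalarTower.algebraMap_apply ℂ K Ω]
    rfl
  have hTΛ : IsScalarTower ℂ Λ Ω := IsScalarTower.of_algebraMap_eq fun z => by
    rw [IsScalarTower.algebraMap_apply ℂ (BB' F i0) Ω]
    rfl
  let φ0 : K →+* FF :=
    { toFun := fun z => ⟨algebraMap K Ω z, IntermediateField.subset_adjoin _ _ ⟨z, rfl⟩⟩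
      map_one' := Subtype.ext (map_one _)
      map_mul' := fun a b => Subtype.ext (map_mul _ _ _)
      map_zero' := Subtype.ext (map_zero _)
      map_add' := fun a b => Subtype.ext (map_add _ _ _) }
  let iKF : Algebra K FF := φ0.toAlgebra
  have hKF : ∀ z : K, ((algebraMap K FF z : FF) : Ω) = algebraMap K Ω z := fun z => rfl
  have hT2 : IsScalarTower ℂ K FF := IsScalarTower.of_algebraMap_eq fun z => by
    apply Subtype.ext
    rw [hKF, ← IsScalarTower.algebraMap_apply ℂ K Ω]
    rfl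
  have hT5 : IsScalarTower ℂ Λ FF := inferInstance
  have hT4 : IsScalarTower (BB' F i0) Λ FF := IsScalarTower.of_algebraMap_eq fun z =>
    Subtype.ext rfl
  have hgenF : IntermediateField.adjoin Λ (Set.range (algebraMap K FF)) = ⊤ := by
    have h1 : (IntermediateField.adjoin Λ (Set.range (algebraMap K FF))).map FF.val =
        (⊤ : IntermediateField Λ FF).map FF.val := by
      rw [IntermediateField.adjoin_map, ← AlgHom.fieldRange_eq_map,
        IntermediateField.fieldRange_val]
      congr 1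
      ext z
      simp only [Set.mem_image, Set.mem_range]
      constructor
      · rintro ⟨_, ⟨y, rfl⟩, rfl⟩
        exact ⟨y, rfl⟩
      · rintro ⟨y, rfl⟩
        exact ⟨_, ⟨y, rfl⟩, rfl⟩
    exact IntermediateField.map_injective _ h1
  have hLK : Algebra.trdeg (BB' F i0) K = (1 : ℕ) := Pool.Agent.Y174.trdeg_LK (r := 1) hB hK
  have htrF : Algebra.trdeg Λ FF = (1 : ℕ) :=
    Pool.Agent.Y174.trdeg_F (L := BB' F i0) (K := K) hLK hgenF
  have hessF : Algebra.EssFiniteType Λ FF := Pool.Agent.Y174.ess_F (k := ℂ) (K := K) hess hgenF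
  have hFF : IsFF Λ FF := ⟨hessF, by rw [htrF]; simp⟩
  obtain ⟨s, hs, hsM, hsB⟩ := fib_coord hbase hcurve hsup hK i0 (hx i0) (hD0 i0) (hBx i0) E' ht
    ((hE'm ξ).1 hξM) hξ hZ hEf hfin Λ FF (fun z hz => Subtype.ext rfl) hgenF
  have hΛtr : Algebra.trdeg ℂ Λ = (n : ℕ) := by
    have h1 := trdeg_add_eq ℂ (BB' F i0) (A := Λ)
    have h2 : Algebra.trdeg (BB' F i0) Λ = 0 := trdeg_eq_zero
    rw [h2, add_zero, hB] at h1
    exact h1.symm
  let ψ : L →ₐ[ℂ] FF := (IsScalarTower.toAlgHom ℂ K FF).comp (IsScalarTower.toAlgHom ℂ L K)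
  have hψ : ∀ z : L, ψ z = algebraMap K FF (algebraMap L K z) := fun z => rfl
  refine hA1 n L Λ FF hL hΛtr ψ s hs (fun e => ?_) BL ?_
  · rw [hψ]
    exact hsM _ ((hE'm _).1 (M.algebraMap_mem e))
  · intro Q v e he hQv hBv
    -- the place of `K`
    obtain ⟨Q', hQ'⟩ := exists_rc (k := ℂ) Q
    obtain ⟨tv, -, htv⟩ := v.surj
    obtain ⟨e1, P', hP'⟩ := exists_over (K := K) Q' ⟨algebraMap L K tv, by
      intro h1
      rw [hQ'] at h1
      have h3 := hQv tv
      rw [hψ, h1, htv] at h3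
      have h4 : (e : ℤ) ≠ 0 := by exact_mod_cast he.ne'
      omega⟩
    obtain ⟨v', e2, hv'⟩ := Pool.Agent.Y172.exists_below (K := L) P'
    have hvv : v = v' := by
      have h1 : ∀ f, (e : ℤ) * v.ord f = (e1 * e2 : ℕ) * v'.ord f := by
        intro f
        rw [← hQv, hψ, ← hQ', hP'.2, hv'.2]
        push_cast
        ring
      obtain ⟨f', -, hf'⟩ := v'.surj
      have h3 := h1 tv
      have h4 := h1 f'
      rw [htv, mul_one] at h3
      rw [hf', mul_one] at h4
      have h5 : ((e1 * e2 : ℕ) : ℤ) ∣ e := ⟨_, h3⟩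
      have h6 : (e : ℤ) ∣ (e1 * e2 : ℕ) := ⟨_, h4.symm⟩
      have h7 : e = e1 * e2 := Nat.dvd_antisymm (by exact_mod_cast h6) (by exact_mod_cast h5)
      refine Pool.Agent.Y172.place_ext fun f => ?_
      have h8 := h1 f
      rw [← h7] at h8
      have he' : (e : ℤ) ≠ 0 := by exact_mod_cast he.ne'
      exact mul_left_cancel₀ he' h8
    rw [← hvv] at hv'
    obtain ⟨i, p, hp, e3, hp3⟩ := hBL v P' e2 hv' hBv
    have hQp : ∀ z : F i, Q.ord (algebraMap K FF (z : K)) = (e1 * e3 : ℕ) * p.ord z := by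
      intro z
      rw [← hQ', hP'.2]
      have h1 := hp3.2 z
      have h3 : algebraMap (F i) K z = (z : K) := rfl
      rw [h3] at h1
      rw [h1]
      push_cast
      ring
    have hpos : 0 < e1 * e3 := Nat.mul_pos hP'.1 hp3.1
    by_cases hi : i = i0
    · subst hi
      exact hsB Q ⟨p, hp, e1 * e3, hpos, hQp⟩
    · exfalso
      obtain ⟨w, hw0, hw⟩ := p.surj
      have h1 := hQp w
      have h3 : algebraMap K FF (w : K) = algebraMap Λ FF (algebraMap (BB' F i0) Λ
          ⟨(w : K), hmB i hi w⟩) := Subtype.ext rfl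
      have h4 : algebraMap (BB' F i0) Λ ⟨(w : K), hmB i hi w⟩ ≠ 0 := by
        rw [Ne, map_eq_zero]
        intro h5
        apply hw0
        have h7 : (w : K) = 0 := congrArg Subtype.val h5
        exact Subtype.ext h7
      rw [h3, Q.ord_const h4, hw] at h1
      have h6 : ((e1 * e3 : ℕ) : ℤ) ≠ 0 := by exact_mod_cast hpos.ne'
      omega

end

end Pool.Agent.N145.PL
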