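import Pool.Agent.N145.PL.Main
import Pool.Agent.N145.PC.Geo
import Pool.Agent.N145.PC.Fib2

/-!
Frames adapted to a fibration by curves and to an intermediate field.
-/

set_option autoImplicit false
set_option linter.overlappingInstances false
set_option linter.unusedSectionVars false
set_option linter.unusedVariables false
set_option maxHeartbeats 4000000
set_option synthInstance.maxHeartbeats 400000

open Polynomial FF IsDedekindDomain IntermediateField Module

namespace Pool.Agent.N145.PL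

open Pool.Agent.W603.LV Pool.Agent.W619.PQ Pool.Agent.N145.PC

section

variable {K : Type} [Field K] [Algebra ℂ K] {n : ℕ}

/-- a frame adapted to the fibration with base `B` and to the intermediate field `EE` -/
theorem exists_frame (hK : Algebra.trdeg ℂ K = (n + 1 : ℕ)) (B : IntermediateField ℂ K)
    (hB : Algebra.trdeg ℂ B = n) (EE : IntermediateField ℂ K) (hle : B ≤ EE)
    [FiniteDimensional EE K] :
    ∃ (t : Fin n → K) (ξ : K), (∀ j, t j ∈ B) ∧ ξ ∈ EE ∧ ¬ IsAlgebraic B ξ ∧
      IsTranscendenceBasis ℂ (Fin.append t (fun _ : Fin 1 => ξ)) ∧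
      ∃ (D0 : Fin (n + 1) → Derivation ℂ EE EE) (Ef : Fin (n + 1) → Derivation ℂ K K),
        (∀ i (g : EE), Ef i (g : K) = (D0 i g : EE)) ∧ (∀ z ∈ B, Ef (Fin.last n) z = 0) ∧
        ∀ i j, Ef i (Fin.append t (fun _ : Fin 1 => ξ) j) = if i = j then 1 else 0 := by
  classical
  have hB0 : CharZero B := charZero_of_injective_algebraMap (algebraMap ℂ B).injective
  obtain ⟨E', hE'⟩ : ∃ E' : IntermediateField B K,
      E' = IntermediateField.extendScalars hle := ⟨_, rfl⟩
  have hE'm : ∀ z : K, z ∈ E' ↔ z ∈ EE := by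
    intro z
    rw [hE', IntermediateField.mem_extendScalars]
  have hfinE : FiniteDimensional E' K := by
    rw [hE']
    exact inferInstanceAs (FiniteDimensional EE K)
  obtain ⟨tB, htB⟩ := Pool.Agent.W636.PG.exists_basis ℂ B n hB
  have hLK : Algebra.trdeg B K = (1 : ℕ) :=
    Pool.Agent.Y174.trdeg_LK (r := 1) hB hK
  obtain ⟨ξ, hξE, hξ⟩ : ∃ ξ : K, ξ ∈ E' ∧ ¬ IsAlgebraic B ξ := by
    by_contra hcon
    push Not at hcon
    have h1 : Algebra.IsAlgebraic B E' := ⟨fun z => by
      have h2 := hcon (z : K) z.2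
      exact (isAlgebraic_algebraMap_iff (R := B) (algebraMap E' K).injective).1 h2⟩
    have h2 : Algebra.IsAlgebraic B K := Algebra.IsAlgebraic.trans B E' K
    have h3 : Algebra.trdeg B K = 0 := trdeg_eq_zero
    rw [h3] at hLK
    have h4 : (0 : ℕ) = 1 := by exact_mod_cast hLK
    exact zero_ne_one h4
  have hxB : IsTranscendenceBasis B (fun _ : Fin (0 + 1) => ξ) := by
    have h1 : AlgebraicIndependent B (fun _ : Fin (0 + 1) => ξ) := by
      have : Unique (Fin (0 + 1)) := inferInstanceAs (Unique (Fin 1))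
      rw [algebraicIndependent_unique_type_iff]
      exact hξ
    refine h1.isTranscendenceBasis_of_lift_trdeg_le_of_finite ?_
    rw [hLK]
    simp
  have hZ := Pool.Agent.Y174.basis_append htB hxB
  have hEtr : Algebra.trdeg ℂ EE = (n + 1 : ℕ) :=
    Pool.Agent.Y184.NT.trdeg_below (K := K) hK
  have hmemE : ∀ i, Fin.append (algebraMap B K ∘ tB) (fun _ : Fin (0 + 1) => ξ) i ∈ EE := by
    intro i
    refine Fin.addCases (fun i => ?_) (fun i => ?_) i
    · rw [Fin.append_left]
      exact hle (tB i).2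
    · rw [Fin.append_right]
      exact (hE'm ξ).1 hξE
  obtain ⟨zE, hzE⟩ : ∃ zE : Fin (n + 1) → EE, ∀ i, (zE i : K) =
    Fin.append (algebraMap B K ∘ tB) (fun _ : Fin (0 + 1) => ξ) i :=
      ⟨fun i => ⟨_, hmemE i⟩, fun _ => rfl⟩
  have hzEb : IsTranscendenceBasis ℂ zE := by
    have h1 : AlgebraicIndependent ℂ zE := by
      refine AlgebraicIndependent.of_comp EE.val ?_
      have h2 : (EE.val ∘ zE) = Fin.append (algebraMap B K ∘ tB) (fun _ : Fin (0 + 1) => ξ) :=
        funext hzE
      rw [h2]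
      exact hZ.1
    refine h1.isTranscendenceBasis_of_lift_trdeg_le_of_finite ?_
    rw [hEtr]
    simp
  obtain ⟨D0, hD0⟩ := Pool.Agent.W636.PG.exists_duals ℂ EE (n + 1) zE hzEb
  choose Ef hEf using fun i => Pool.Agent.Y172.exists_lift (k := ℂ) (K := EE) (L := K) hEtr (D0 i)
  have hdual : ∀ i j, Ef i (Fin.append (algebraMap B K ∘ tB) (fun _ : Fin 1 => ξ) j) =
      if i = j then 1 else 0 := ?_
  · refine ⟨algebraMap B K ∘ tB, ξ, fun j => (tB j).2, (hE'm ξ).1 hξE, hξ, hZ, D0, Ef, hEf, ?_,
      hdual⟩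
    intro z hz
    have h1 := Pool.Agent.W619.TW.der_zero ((Ef (Fin.last n)).compAlgebraMap B) tB htB (fun j => by
      change Ef (Fin.last n) (tB j : K) = 0
      have h2 := hdual (Fin.last n) j.castSucc
      have h3 : Fin.append (algebraMap B K ∘ tB) (fun _ : Fin 1 => ξ) j.castSucc = (tB j : K) :=
        Fin.append_left _ _ j
      rw [h3] at h2
      rw [h2, if_neg]
      exact (Fin.castSucc_lt_last j).ne') ⟨z, hz⟩
    exact h1
  intro i j
  have h0 : Fin.append (algebraMap B K ∘ tB) (fun _ : Fin 1 => ξ) j = zE j := (hzE j).symm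
  rw [h0]
  have h1 := hEf i (zE j)
  rw [hD0] at h1
  refine h1.trans ?_
  by_cases h : i = j
  · rw [if_pos h, if_pos h, map_one]
  · rw [if_neg h, if_neg h, map_zero]

end

end Pool.Agent.N145.PL
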