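import Pool.Agent.N145.PL.Dual

/-!
Differentials of the third kind.
-/

set_option autoImplicit false
set_option linter.overlappingInstances false
set_option linter.unusedSectionVars false

open Polynomial FF IsDedekindDomain IntermediateField

namespace Pool.Agent.N145.PL

open Pool.Agent.W603.LV Pool.Agent.W619.PQ Pool.Agent.N145.PC

section

variable {k F : Type} [Field k] [Field F] [Algebra k F] [CharZero k] [IsFF k F]

/-- a function with poles exactly at the given places -/
theorem exists_poles (Z : Finset (Place k F)) :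
    ∃ x : F, ∀ P : Place k F, P.ord x < 0 ↔ P ∈ Z := by
  classical
  induction Z using Finset.induction_on with
  | empty =>
    refine ⟨0, fun P => ?_⟩
    rw [P.ord_zero]
    simp
  | insert P Z hP ih =>
    obtain ⟨x, hx⟩ := ih
    obtain ⟨h, hh, hother⟩ := Pool.Agent.N162.BC.exists_pole P
    have hreg : ∀ Q : Place k F, Q ∉ Z → Ge Q 0 x := by
      intro Q hQ
      right
      by_contra hcon
      exact hQ ((hx Q).1 (by omega))
    have hh' : ∀ Q : Place k F, Q ≠ P → Ge Q 0 h := fun Q hQ => Or.inr (hother Q hQ)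
    have hadd : ∀ (Q : Place k F) (a b : F), Q.ord a < 0 → Ge Q 0 b → Q.ord (a + b) < 0 := by
      intro Q a b ha hb
      have ha0 : a ≠ 0 := by
        rintro rfl
        rw [Q.ord_zero] at ha
        omega
      rcases hb with rfl | hb
      · rw [add_zero]
        exact ha
      · by_cases hb0 : b = 0
        · rw [hb0, add_zero]
          exact ha
        · rw [(Q.ord_add_eq ha0 hb0 (by omega)).2]
          exact ha
    refine ⟨x + h, fun Q => ?_⟩
    rw [Finset.mem_insert]
    constructor
    · intro hQ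
      by_contra hcon
      push Not at hcon
      have h1 := (hreg Q hcon.2).add (hh' Q hcon.1)
      rcases h1 with h1 | h1
      · rw [h1, Q.ord_zero] at hQ
        omega
      · omega
    · rintro (rfl | hQ)
      · rw [add_comm]
        exact hadd Q h x hh (hreg Q hP)
      · have hQP : Q ≠ P := by
          rintro rfl
          exact hP hQ
        exact hadd Q x h ((hx Q).2 hQ) (hh' Q hQP)

/-- a function which is regular everywhere is constant -/
theorem const_of_reg [IsAlgClosed k] {b : F} (hb : ∀ P : Place k F, Ge P 0 b) :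
    ∃ c : k, b = algebraMap k F c := by
  by_cases ht : Transcendental k b
  · exfalso
    have hfin : FiniteDimensional k⟮b⟯ F := IsFF.finite ht
    obtain ⟨S, hS, hS2⟩ := poles (k := k) (K := F) ht
    have hpos : 0 < Module.finrank k⟮b⟯ F := Module.finrank_pos
    obtain ⟨Q, hQ⟩ : S.Nonempty := by
      rw [Finset.nonempty_iff_ne_empty]
      rintro rfl
      rw [Finset.sum_empty] at hS2
      omega
    have h1 := (hS Q).1 hQ
    rcases hb Q with h2 | h2
    · rw [h2, Q.ord_zero] at h1
      omega
    · omega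
  · have h1 : IsAlgebraic k b := by
      unfold Transcendental at ht
      push Not at ht
      exact ht
    have h2 : IsIntegral k b := h1.isIntegral
    have h3 : Algebra.IsAlgebraic k k⟮b⟯ := IntermediateField.isAlgebraic_adjoin_simple h2
    have h4 : Algebra.IsIntegral k k⟮b⟯ := h3.isIntegral
    obtain ⟨c, hc⟩ := (IsAlgClosed.algebraMap_bijective_of_isIntegral (k := k) (K := k⟮b⟯)).2
      ⟨b, mem_adjoin_simple_self k b⟩
    exact ⟨c, (congrArg Subtype.val hc).symm⟩

variable [IsAlgClosed k]

/-- the order at a pole of `x` of a rational function of `x` -/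
theorem ord_iota {x : F} (hx : Transcendental k x) {P : Place k F} (hP : P.ord x < 0) {r : k⟮x⟯}
    (hr : r ≠ 0) : P.ord (algebraMap k⟮x⟯ F r) = -((iota hx r).order * P.ord x) := by
  obtain ⟨p, g, hg, hpg⟩ := exists_px_div r
  have hp : p ≠ 0 := by
    rintro rfl
    rw [map_zero, mul_eq_zero] at hpg
    rcases hpg with h | h
    · exact hr h
    · exact hg (px_injective hx (by rw [h, map_zero]))
  have h7 := congrArg (iota hx) hpg
  rw [map_mul, iota_px, iota_px] at h7
  have h9 := congrArg HahnSeries.order h7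
  rw [HahnSeries.order_mul (by rwa [Ne, map_eq_zero]) (eU_ne hg), order_eU hg, order_eU hp] at h9
  have h10 := congrArg (fun z : k⟮x⟯ => P.ord (algebraMap k⟮x⟯ F z)) hpg
  simp only [map_mul] at h10
  have h11 : ∀ s : k[X], algebraMap k⟮x⟯ F (px x s) = aeval x s := coe_px
  rw [h11, h11, P.ord_mul (by simpa using hr) (ord_aeval_of_neg P hP hg).1,
    (ord_aeval_of_neg P hP hg).2, (ord_aeval_of_neg P hP hp).2] at h10
  have h12 : (iota hx r).order = (g.natDegree : ℤ) - p.natDegree := by omega
  rw [h12]
  linarith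

/-- the multiplier of a functional which does not vanish on the functions regular at the poles
of `x` is not regular -/
theorem not_regular {x : F} (hx : Transcendental k x) {B : Set (Place k F)} {lam : F →ₗ[k] k}
    (hI : ∀ y ∈ BJ (k := k) x B, lam y = 0) {D : Derivation k F F} (hD : D x = 1) {f : F}
    (hf : ∀ y, iota hx (Algebra.trace k⟮x⟯ F (f * y)) = SS (sh x lam) (sh_BI hI) (x * y))
    {e : F} (he : ∀ P : Place k F, P.ord x < 0 → Ge P 0 e) (hle : lam e ≠ 0) :
    ∃ Q : Place k F, ¬ Ge Q (vo Q D) f := by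
  classical
  by_contra hcon
  push Not at hcon
  apply hle
  have hx0 : x ≠ 0 := by
    rintro rfl
    exact hx isAlgebraic_zero
  have hfin := IsFF.finite hx
  have hD0 : D ≠ 0 := by
    rintro rfl
    simp at hD
  have h1 := congrArg (fun s : HahnSeries ℤ k => s.coeff 1) (hf e)
  simp only [S2_coeff hI hx0, sub_self, zpow_zero, one_mul] at h1
  rw [← h1]
  set r := Algebra.trace k⟮x⟯ F (f * e) with hr
  by_cases hr0 : r = 0
  · rw [hr0, map_zero, HahnSeries.coeff_zero]
  let xx : k⟮x⟯ := ⟨x, mem_adjoin_simple_self k x⟩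
  -- a pole of `x`
  obtain ⟨S, hS, hS2⟩ := poles (k := k) (K := F) hx
  have hpos : 0 < Module.finrank k⟮x⟯ F := Module.finrank_pos
  obtain ⟨P, hP⟩ : S.Nonempty := by
    rw [Finset.nonempty_iff_ne_empty]
    rintro rfl
    rw [Finset.sum_empty] at hS2
    omega
  have hPx := (hS P).1 hP
  obtain ⟨e0, q, hq⟩ := exists_over (K := k⟮x⟯) P ⟨xx, by
    change P.ord x ≠ 0; omega⟩
  have hqx : q.ord xx < 0 := by
    have h1 := hq.2 xx
    have h2 : P.ord (algebraMap k⟮x⟯ F xx) = P.ord x := rfl
    have h3 := hq.1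
    by_contra hcon
    push Not at hcon
    have : (0 : ℤ) ≤ e0 * q.ord xx := by positivity
    omega
  have hw : ∀ (w : Place k F) (e : ℕ), Over w q e → w.ord x = e * q.ord xx := fun w e h => h.2 xx
  have hwx : ∀ (w : Place k F) (e : ℕ), Over w q e → w.ord x < 0 := by
    intro w e h
    rw [hw w e h]
    exact mul_neg_of_pos_of_neg (by exact_mod_cast h.1) hqx
  have hfs := finite_support (k := k) x
  have hN : ∀ (w : Place k F) (e : ℕ), Over w q e →
      e ≤ ∑ w ∈ hfs.toFinset, (w.ord x).natAbs := by
    intro w e h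
    have h1 := hw w e h
    have h2 := hwx w e h
    have h3 : w ∈ hfs.toFinset := by
      rw [hfs.mem_toFinset]
      change w.ord x ≠ 0
      omega
    have h4 := Finset.single_le_sum (f := fun w : Place k F => (w.ord x).natAbs)
      (fun _ _ => Nat.zero_le _) h3
    have h5 : (w.ord x).natAbs ≤ ∑ w ∈ hfs.toFinset, (w.ord x).natAbs := h4
    have h6 : (e : ℤ) ≤ (w.ord x).natAbs := by
      have h7 : (0 : ℤ) < e := by exact_mod_cast h.1
      have h8 : (e : ℤ) * q.ord xx ≤ e * (-1) := mul_le_mul_of_nonneg_left (by omega) h7.le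
      omega
    have h7 : e ≤ (w.ord x).natAbs := by exact_mod_cast h6
    omega
  have h2 := trace_nil q (x * (f * e)) _ hN (by
    intro w e' h
    have h3 := hwx w e' h
    have hvo := (ord_der w hD0 (f := x) (by omega)).2
    rw [hD, w.ord_one] at hvo
    have h4 : Ge w (w.ord x) x := Or.inr le_rfl
    refine (h4.mul ((hcon w).mul (he w h3))).mono ?_
    omega)
  have h5 : Algebra.trace k⟮x⟯ F (x * (f * e)) = xx * r := trace_mul_left xx (f * e)
  rw [h5] at h2
  have hxx0 : xx ≠ 0 := by
    intro h
    apply hx0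
    exact congrArg Subtype.val h
  have h3 := h2.resolve_left (mul_ne_zero hxx0 hr0)
  have h4 := hq.2 (xx * r)
  rw [map_mul, P.ord_mul (by simpa using hxx0) (by simpa using hr0), ord_iota hx hPx hr0] at h4
  have h6 : P.ord (algebraMap k⟮x⟯ F xx) = P.ord x := rfl
  rw [h6] at h4
  have h7 : (0 : ℤ) < e0 := by exact_mod_cast hq.1
  have h8 : (0 : ℤ) < e0 * q.ord (xx * r) := by positivity
  apply HahnSeries.coeff_eq_zero_of_lt_order
  by_contra hcon2
  push Not at hcon2
  have h9 : (1 - (iota hx r).order) * P.ord x ≤ 0 :=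
    mul_nonpos_of_nonneg_of_nonpos (by omega) hPx.le
  have h10 : (1 - (iota hx r).order) * P.ord x = P.ord x - (iota hx r).order * P.ord x := by ring
  omega

end

/-- **Differentials of the third kind.** -/
theorem third : S_THIRD := by
  classical
  intro k F _ _ _ _ _ _ D hD Q1 Q2 hne
  obtain ⟨x, hx⟩ := exists_poles ({Q1, Q2} : Finset (Place k F))
  have hx1 : Q1.ord x < 0 := (hx Q1).2 (by simp)
  have hx2 : Q2.ord x < 0 := (hx Q2).2 (by simp)
  have hxt : Transcendental k x := Q1.transcendental_of_ord_ne (by omega)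
  have hDx : D x ≠ 0 := der_ne_zero hD hxt
  obtain ⟨D1, hD1⟩ : ∃ D1 : Derivation k F F, D1 = (D x)⁻¹ • D := ⟨_, rfl⟩
  have hD1x : D1 x = 1 := by
    rw [hD1, Derivation.smul_apply, smul_eq_mul, inv_mul_cancel₀ hDx]
  have hDD : D = D x • D1 := by
    rw [hD1, smul_smul, mul_inv_cancel₀ hDx, one_smul]
  have hD10 : D1 ≠ 0 := by
    rintro h
    rw [h] at hD1x
    simp at hD1x
  have hmem : ∀ P : Place k F, P ∈ ({Q1, Q2} : Set (Place k F)) ↔ P.ord x < 0 := by
    intro P
    rw [hx]
    simp
  -- the test function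
  obtain ⟨e, he1, he2⟩ := approx_one {Q2} Q1 (by simpa using hne) (1 : F) 1
  have he2' := he2 Q2 (by simp)
  have hereg : ∀ P : Place k F, P.ord x < 0 → Ge P 0 e := by
    intro P hP
    have h1 := (hx P).1 hP
    rw [Finset.mem_insert, Finset.mem_singleton] at h1
    rcases h1 with rfl | rfl
    · have h2 := (he1.mono (by norm_num : (0 : ℤ) ≤ 1)).add (Ge.one (P := P))
      simpa using h2
    · exact he2'.mono (by norm_num)
  have hnot : e ∉ BB (k := k) x ⊔ BJ (k := k) x ({Q1, Q2} : Set (Place k F)) := by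
    intro h
    obtain ⟨b, hb, i, hi, hbi⟩ := Submodule.mem_sup.1 h
    have hb' : b = e - i := by rw [← hbi]; ring
    have hi' : ∀ P : Place k F, P.ord x < 0 → Ge P 1 i := by
      intro P hP
      have h1 := hi P hP
      unfold bd at h1
      rwa [if_pos ((hmem P).2 hP)] at h1
    obtain ⟨c, hc⟩ := const_of_reg (k := k) (b := b) (by
      intro P
      by_cases hP : P.ord x < 0
      · rw [hb']
        exact (hereg P hP).sub ((hi' P hP).mono (by norm_num))
      · exact hb P (by omega))
    have h1 : (1 : k) - c = 0 := by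
      apply const_eq_zero (M := F) Q1
      have h2 : algebraMap k F (1 - c) = -(e - 1) + i := by
        rw [map_sub, map_one, ← hc, hb']
        ring
      rw [h2]
      exact he1.neg.add (hi' Q1 hx1)
    have h2 : c = 0 := by
      apply const_eq_zero (M := F) Q2
      rw [← hc, hb']
      exact he2'.sub (hi' Q2 hx2)
    rw [h2] at h1
    norm_num at h1
  obtain ⟨lam, hlam, hle⟩ := Submodule.exists_le_ker_of_notMem hnot
  have hB : ∀ y ∈ BB (k := k) x, lam y = 0 := fun y hy => hle (Submodule.mem_sup_left hy)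
  have hI : ∀ y ∈ BJ (k := k) x ({Q1, Q2} : Set (Place k F)), lam y = 0 := fun y hy =>
    hle (Submodule.mem_sup_right hy)
  have hlne : lam ≠ 0 := by
    rintro rfl
    exact hlam rfl
  obtain ⟨f, hf0, hf⟩ := exists_mult2 hI hxt hB hlne
  have hfreg := mult_regular2 hI hxt D1 hD1x hB (fun P hP => (hmem P).1 hP) hf0 hf
  obtain ⟨Q, hQ⟩ := not_regular hxt hI hD1x hf hereg hlam
  have hvo : ∀ P : Place k F, vo P D = P.ord (D x) + vo P D1 := by
    intro P
    conv_lhs => rw [hDD]
    exact vo_smul P hD10 hDx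
  refine ⟨D x * f, fun P => ?_, Q, fun h => hQ ?_⟩
  · right
    rw [P.ord_mul hDx hf0, hvo]
    have := hfreg P
    omega
  · rcases h with h | h
    · exact absurd h (mul_ne_zero hDx hf0)
    · right
      rw [Q.ord_mul hDx hf0, hvo] at h
      omega

end Pool.Agent.N145.PL
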