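import Pool.Agent.N145.PL.Dich2
import Pool.Agent.N145.PL.Third
import Pool.Agent.N342.LG.BASE
import Pool.Agent.N75.LG.Curve
import Pool.Agent.N78.LG.A1

/-!
The logarithmic dichotomy without hypotheses. The parts are due to helper342 (extension of the
constants), helper75 (curves without logarithmic differentials) and helper78 (`A¹`-uniruledness from
a parametrization of the geometric generic fibre).
-/

set_option autoImplicit false
set_option linter.overlappingInstances false
set_option linter.unusedSectionVars false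
set_option linter.unusedVariables false
set_option maxHeartbeats 4000000
set_option synthInstance.maxHeartbeats 400000

open Polynomial FF IsDedekindDomain IntermediateField Module

namespace Pool.Agent.N145.PL

open Pool.Agent.W603.LV Pool.Agent.W619.PQ Pool.Agent.N145.PC
open Pool.Agent.W602.GT (Divisorial RegAt IsPluri DerReg KodGe LogSec Psef psef_of_kodGe)
open Pool.Agent.R882.LT (LogGenusZero)
open Pool.Agent.W619.PL (IsA1Uniruled)

theorem base : S_BASE := Pool.Agent.N342.LG.BASE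

theorem curve : S_CURVE := Pool.Agent.N75.LG.CURVE third

theorem a1 : S_A1 := Pool.Agent.N78.LG.A1

section

variable {K : Type} [Field K] [Algebra ℂ K] {n : ℕ}
  {L : Type} [Field L] [Algebra ℂ L] [Algebra L K] [IsScalarTower ℂ L K]
  [FiniteDimensional L K]

/-- **The logarithmic dichotomy.** -/
theorem dichotomy [hess : Algebra.EssFiniteType ℂ K] {F : Fin (n + 1) → IntermediateField ℂ K}
    [∀ i, IsFF ℂ (F i)] (hsup : ⨆ i, F i = ⊤)
    (hK : Algebra.trdeg ℂ K = (n + 1 : ℕ)) {B : ∀ i, Set (Place ℂ (F i))}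
    (hBf : ∀ i, (B i).Finite) {BL : Place ℂ L → Prop}
    (hBL : ∀ (P : Place ℂ L) (Q : Place ℂ K) (e : ℕ), Over Q P e →
      (BL P ↔ BdK (E := fun i => F i) B Q))
    {g : Fin (n + 1) → ℕ} (hg : ∀ i, ∀ y : F i, Transcendental ℂ y → (∀ P ∈ B i, 0 < P.ord y) →
      g i ≤ finrank ℂ⟮y⟯ (F i)) {s : ℕ}
    (hs : ∀ l : Fin (n + 1), l.val < s → 2 * finrank (MF F L (Js _ l))
      (IntermediateField.adjoin (MF F L (Js _ l)) (F l : Set K)) < g l)
    (hpair : ∀ i j : Fin (n + 1), s ≤ i.val → s ≤ j.val → i ≠ j →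
      2 * finrank (MF F L (Js _ s))
        (IntermediateField.adjoin (MF F L (Js _ s)) (F i : Set K)) < g i ∨
      2 * finrank (MF F L (Js _ s))
        (IntermediateField.adjoin (MF F L (Js _ s)) (F j : Set K)) < g j ∨
      2 * finrank (MF F L (Js _ s)) K + 3 ≤ g i + g j) :
    [Psef ℂ L (n + 1) BL, KodGe ℂ L (n + 1) BL n, ¬ IsA1Uniruled ℂ L (n + 1) BL].TFAE := by
  have hL : Algebra.trdeg ℂ L = (n + 1 : ℕ) := Pool.Agent.Y184.NT.trdeg_below (K := K) hK
  have hessL : Algebra.EssFiniteType ℂ L := Pool.Agent.TH466.QG.ess_below (K := K)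
  have h1 := dichotomyL base curve a1 hsup hK hBf (fun P Q e h => (hBL P Q e h).2)
    (fun P Q e h => (hBL P Q e h).1) hg hs hpair
  tfae_have 3 → 2 := fun h => h1.resolve_left h
  tfae_have 2 → 1 := fun h => psef_of_kodGe' h
  tfae_have 1 → 3 := fun h h' => not_psef_of_a1 hL h' h
  tfae_finish

/-- **Images of products of open curves without logarithmic canonical forms.** -/
theorem genus_zero [hess : Algebra.EssFiniteType ℂ K] {F : Fin (n + 1) → IntermediateField ℂ K}
    [∀ i, IsFF ℂ (F i)] (hsup : ⨆ i, F i = ⊤)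
    (hK : Algebra.trdeg ℂ K = (n + 1 : ℕ)) {B : ∀ i, Set (Place ℂ (F i))}
    (hBf : ∀ i, (B i).Finite) {BL : Place ℂ L → Prop}
    (hBL : ∀ (P : Place ℂ L) (Q : Place ℂ K) (e : ℕ), Over Q P e →
      (BL P ↔ BdK (E := fun i => F i) B Q))
    {g : Fin (n + 1) → ℕ} (hg : ∀ i, ∀ y : F i, Transcendental ℂ y → (∀ P ∈ B i, 0 < P.ord y) →
      g i ≤ finrank ℂ⟮y⟯ (F i)) {s : ℕ}
    (hs : ∀ l : Fin (n + 1), l.val < s → finrank (MF F L (Js _ l))
      (IntermediateField.adjoin (MF F L (Js _ l)) (F l : Set K)) < g l)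
    (hpair : ∀ i j : Fin (n + 1), s ≤ i.val → s ≤ j.val → i ≠ j →
      finrank (MF F L (Js _ s))
        (IntermediateField.adjoin (MF F L (Js _ s)) (F i : Set K)) < g i ∨
      finrank (MF F L (Js _ s))
        (IntermediateField.adjoin (MF F L (Js _ s)) (F j : Set K)) < g j ∨
      finrank (MF F L (Js _ s)) K + 3 ≤ g i + g j) :
    [LogGenusZero L (n + 1) BL, ¬ KodGe ℂ L (n + 1) BL 0, ¬ Psef ℂ L (n + 1) BL,
      IsA1Uniruled ℂ L (n + 1) BL].TFAE := by
  have hL : Algebra.trdeg ℂ L = (n + 1 : ℕ) := Pool.Agent.Y184.NT.trdeg_below (K := K) hK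
  have hessL : Algebra.EssFiniteType ℂ L := Pool.Agent.TH466.QG.ess_below (K := K)
  exact tfaeL hL (one_fibreL base curve a1 hsup hK hBf (fun P Q e h => (hBL P Q e h).2)
    (fun P Q e h => (hBL P Q e h).1) hg hs hpair)

end

end Pool.Agent.N145.PL
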