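import Pool.Agent.N145.PL.Prod

/-!
Quasi-projective varieties dominated by products of open curves of large logarithmic gonality.
-/

set_option autoImplicit false
set_option linter.overlappingInstances false
set_option linter.unusedSectionVars false
set_option linter.unusedVariables false
set_option maxHeartbeats 4000000
set_option synthInstance.maxHeartbeats 400000

open Polynomial FF IsDedekindDomain IntermediateField Module

namespace Pool.Agent.N145.PL

open Pool.Agent.W603.LV Pool.Agent.W619.PQ Pool.Agent.N145.PC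
open Pool.Agent.W602.GT (Divisorial RegAt IsPluri DerReg DerLog LogAt KodGe LogSec)
open Pool.Agent.Y184.NT (trForm trForm_pluri)
open Pool.Agent.R882.LT (SecAt)

open scoped Classical

section

variable {K : Type} [Field K] [Algebra ℂ K] {n : ℕ} {F : Fin n → IntermediateField ℂ K}
  [∀ i, IsFF ℂ (F i)] {L Ω : Type} [Field L] [Field Ω] [Algebra ℂ L] [Algebra ℂ Ω]
  [Algebra L K] [IsScalarTower ℂ L K] [Algebra L Ω] [IsScalarTower ℂ L Ω]
  [FiniteDimensional L K] [IsAlgClosed Ω] {H : ∀ i, Set (F i)}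

/-- the relation between the points of a fibre with the same coordinates in `J` as `τ0` -/
def RlH (H : ∀ i, Set (F i)) (h : K) (τ0 : K →ₐ[L] Ω) (J : Finset (Fin n)) : Prop :=
  Rl (fun i => res (K := K) (L := L) (Ω := Ω) (F i)) (ev Ω F) H (fun τ => τ h) τ0 J

theorem rel_zeroH {h : K}
    (htr : ∀ f : ∀ i, F i, (∀ i, f i ∈ H i) →
      Algebra.trace L K (h * ∏ i, algebraMap (F i) K (f i)) = 0) (τ0 : K →ₐ[L] Ω) :
    RlH H h τ0 ∅ := by
  intro f hf
  have hchar : CharZero L := charZero_L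
  have h1 := trace_eq_sum_embeddings (K := L) (L := K) Ω
    (x := h * ∏ i, algebraMap (F i) K (f i))
  rw [htr f fun i => hf i (Finset.notMem_empty _), map_zero] at h1
  rw [h1]
  refine Finset.sum_congr ?_ fun τ _ => ?_
  · ext τ
    simp [mem_SJ]
  · rw [map_mul, map_prod, Finset.compl_empty]
    rfl

theorem rel_univH {h : K} {τ0 : K →ₐ[L] Ω} (hh : h ≠ 0)
    (hm : h ∈ MF F L Finset.univ) (h1 : RlH H h τ0 Finset.univ) : False := by
  have h2 := h1 (fun _ => 0) (fun i hi => absurd (Finset.mem_univ i) hi)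
  rw [Finset.compl_univ] at h2
  have h3 : ∀ τ ∈ SJ (fun i => res (K := K) (L := L) (Ω := Ω) (F i)) τ0 Finset.univ,
      τ h * ∏ i ∈ (∅ : Finset (Fin n)), ev Ω F i 0 (res (K := K) (L := L) (F i) τ) = τ0 h := by
    intro τ hτ
    rw [Finset.prod_empty, mul_one]
    exact (mem_iff τ0 _ τ).1 hτ h hm
  rw [Finset.sum_congr rfl h3, Finset.sum_const, nsmul_eq_mul] at h2
  have hchar : CharZero Ω := charZero_of_injective_algebraMap (algebraMap ℂ Ω).injective
  rcases mul_eq_zero.1 h2 with h4 | h4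
  · rw [Nat.cast_eq_zero, Finset.card_eq_zero] at h4
    exact absurd (self_SJ (p := fun i => res (K := K) (L := L) (Ω := Ω) (F i)) (τ0 := τ0)
      Finset.univ) (by rw [h4]; exact Finset.notMem_empty _)
  · exact hh (by simpa using h4)

theorem rel_eraseH {h : K} {τ0 : K →ₐ[L] Ω} {i0 : Fin n}
    (h1 : RlH H h τ0 (Finset.univ.erase i0)) (f : ∀ i, F i) (hf : f i0 ∈ H i0) :
    Algebra.trace (MF F L (Finset.univ.erase i0)) K
      (h * ∏ i, algebraMap (F i) K (f i)) = 0 := by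
  have h2 := sum_trace (MF F L (Finset.univ.erase i0)) τ0 _
    (mem_iff τ0 (Finset.univ.erase i0)) (h * ∏ i, algebraMap (F i) K (f i))
  have h3 := h1 f (by
    intro i hi
    have : i = i0 := by
      by_contra hne
      exact hi (Finset.mem_erase.2 ⟨hne, Finset.mem_univ _⟩)
    subst this
    exact hf)
  have h4 : (Finset.univ.erase i0 : Finset (Fin n))ᶜ = {i0} := by
    ext i
    simp
  have h5 : ∑ τ ∈ SJ (fun i => res (K := K) (L := L) (Ω := Ω) (F i)) τ0 (Finset.univ.erase i0),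
      τ (h * ∏ i, algebraMap (F i) K (f i)) = 0 := by
    have h6 : ∀ τ ∈ SJ (fun i => res (K := K) (L := L) (Ω := Ω) (F i)) τ0 (Finset.univ.erase i0),
        τ (h * ∏ i, algebraMap (F i) K (f i)) =
        (τ h * ∏ i ∈ (Finset.univ.erase i0 : Finset (Fin n))ᶜ, ev Ω F i (f i)
          (res (K := K) (L := L) (F i) τ)) *
          ∏ i ∈ Finset.univ.erase i0, τ0 (algebraMap (F i) K (f i)) := by
      intro τ hτ
      rw [h4, Finset.prod_singleton, map_mul, map_prod,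
        ← Finset.mul_prod_erase _ _ (Finset.mem_univ i0), mul_assoc]
      congr 2
      refine Finset.prod_congr rfl fun i hi => ?_
      exact (mem_iff τ0 _ τ).1 hτ _ (mem_MJ (E := fun i => F i) _ hi (f i))
    rw [Finset.sum_congr rfl h6, ← Finset.sum_mul, h3, zero_mul]
  rw [h5] at h2
  have h6 := h2.symm
  rw [map_eq_zero, map_eq_zero] at h6
  exact h6

theorem sep_FL {D0 : ∀ i, Derivation ℂ (F i) (F i)} {x : ∀ i, F i}
    (hx : ∀ i, Transcendental ℂ (x i)) (hD0 : ∀ i, D0 i (x i) = 1) {i : Fin n}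
    {B : ∀ i, Set (Place ℂ (F i))} (hBf : ∀ i, (B i).Finite) (hBx : ∀ i, ∀ P ∈ B i, P.ord (x i) < 0)
    {g : ℕ} (hg : ∀ y : F i, Transcendental ℂ y → (∀ P ∈ B i, 0 < P.ord y) →
      g ≤ finrank ℂ⟮y⟯ (F i)) :
    Sep (ev Ω F i) (HL (D0 i) (B i) : Set (F i)) g :=
  fun A hA c hc => sepL (hx i) (hD0 i) (hBf i) (hBx i) hg A hA c hc

end

section

/-- a coordinate with poles on the boundary -/
theorem exists_xB {k F : Type} [Field k] [Field F] [Algebra k F] [CharZero k] [IsFF k F]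
    {B : Set (Place k F)} (hB : B.Finite) : ∃ x : F, Transcendental k x ∧ ∀ P ∈ B, P.ord x < 0 := by
  obtain ⟨P0, -⟩ := exists_place (k := k) (K := F)
  obtain ⟨x, hx⟩ := exists_poles (insert P0 hB.toFinset)
  refine ⟨x, P0.transcendental_of_ord_ne ?_, fun P hP => (hx P).2 ?_⟩
  · have := (hx P0).2 (Finset.mem_insert_self _ _)
    omega
  · exact Finset.mem_insert_of_mem (hB.mem_toFinset.2 hP)

variable {K : Type} [Field K] [Algebra ℂ K] {n : ℕ} {F : Fin n → IntermediateField ℂ K}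
  [∀ i, IsFF ℂ (F i)] {L : Type} [Field L] [Algebra ℂ L] [Algebra L K] [IsScalarTower ℂ L K]
  [FiniteDimensional L K] {B : ∀ i, Set (Place ℂ (F i))}

/-- **A point of the second fibre with the same coordinates.** -/
theorem exists_secondL {Ω' : Type} [Field Ω'] [Algebra ℂ Ω'] [IsAlgClosed Ω']
    {i1 i2 : AlgebraicClosure L →ₐ[ℂ] Ω'} {lam : Ω'} (hlam : lam ≠ 0) {x : ∀ i, F i}
    (hx : ∀ i, Transcendental ℂ (x i)) {D0 : ∀ i, Derivation ℂ (F i) (F i)}
    (hD0 : ∀ i, D0 i (x i) = 1) {h : K} (hh : h ≠ 0) (hm : h ∈ MF F L Finset.univ)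
    (hBf : ∀ i, (B i).Finite) (hBx : ∀ i, ∀ P ∈ B i, P.ord (x i) < 0)
    (hlamT : ∀ f : ∀ i, F i, (∀ i, f i ∈ HL (D0 i) (B i)) →
      i2 (algebraMap L (AlgebraicClosure L)
        (Algebra.trace L K (h * ∏ i, algebraMap (F i) K (f i)))) =
      lam * i1 (algebraMap L (AlgebraicClosure L)
        (Algebra.trace L K (h * ∏ i, algebraMap (F i) K (f i)))))
    {g : Fin n → ℕ} (hg : ∀ i, ∀ y : F i, Transcendental ℂ y → (∀ P ∈ B i, 0 < P.ord y) →
      g i ≤ finrank ℂ⟮y⟯ (F i))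
    (hs : ∀ l : Fin n, 2 * finrank (MF F L (Js n l))
      (IntermediateField.adjoin (MF F L (Js n l)) (F l : Set K)) < g l)
    (τ0 : K →ₐ[L] AlgebraicClosure L) :
    ∃ τ : K →ₐ[L] AlgebraicClosure L, ∀ (i : Fin n) (z : F i), i2 (τ z) = i1 (τ0 z) := by
  have h0 : Rl (P2 i1 i2 F L) (ev Ω' F) (fun i => (HL (D0 i) (B i) : Set (F i)))
      (C2 i1 i2 h lam) (Sum.inl τ0) ∅ := rel2_zero i1 i2 hlamT _
  have hsep := fun i => sep_FL (Ω := Ω') hx hD0 hBf hBx (hg i)
  have h1 := Rl.chain h0 hsep (s := n)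
    (fun l hl => lt_of_le_of_lt (count2_le i1 i2 τ0 _ l) (hs l))
  rw [Js_self] at h1
  exact rel2_univ i1 i2 hlam hh hm h1

/-- some trace does not vanish -/
theorem exists_trace_neL {x : ∀ i, F i}
    (hx : ∀ i, Transcendental ℂ (x i)) {D0 : ∀ i, Derivation ℂ (F i) (F i)}
    (hD0 : ∀ i, D0 i (x i) = 1) {h : K} (hh : h ≠ 0) (hm : h ∈ MF F L Finset.univ)
    (hBf : ∀ i, (B i).Finite) (hBx : ∀ i, ∀ P ∈ B i, P.ord (x i) < 0)
    {g : Fin n → ℕ} (hg : ∀ i, ∀ y : F i, Transcendental ℂ y → (∀ P ∈ B i, 0 < P.ord y) →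
      g i ≤ finrank ℂ⟮y⟯ (F i))
    (hs : ∀ l : Fin n, finrank (MF F L (Js n l))
      (IntermediateField.adjoin (MF F L (Js n l)) (F l : Set K)) < g l) :
    ∃ f : {f : ∀ i, F i // ∀ i, f i ∈ HL (D0 i) (B i)},
      Algebra.trace L K (h * ∏ i, algebraMap (F i) K (f.1 i)) ≠ 0 := by
  by_contra hT0
  push Not at hT0
  obtain ⟨τ0⟩ : Nonempty (K →ₐ[L] AlgebraicClosure L) :=
    ⟨IsAlgClosed.lift (R := L) (M := AlgebraicClosure L) (S := K)⟩
  have hT : IsScalarTower ℂ L (AlgebraicClosure L) := inferInstance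
  have h0 := rel_zeroH (H := fun i => (HL (D0 i) (B i) : Set (F i))) (h := h)
    (fun f hf => hT0 ⟨f, hf⟩) τ0
  have hsep := fun i => sep_FL (Ω := AlgebraicClosure L) hx hD0 hBf hBx (hg i)
  have h1 := Rl.chain h0 hsep (s := n)
    (fun l hl => lt_of_le_of_lt (count_le τ0 _ l) (hs l))
  rw [Js_self] at h1
  exact rel_univH hh hm h1

/-- **Logarithmic general type.** -/
theorem general_typeL [hess : Algebra.EssFiniteType ℂ K]
    (halg : Algebra.IsAlgebraic ↥(⨆ i, F i) K) (hK : Algebra.trdeg ℂ K = n)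
    (hBf : ∀ i, (B i).Finite) {BL : Place ℂ L → Prop}
    (hB : ∀ (P : Place ℂ L) (Q : Place ℂ K) (e : ℕ), Over Q P e → BdK (E := fun i => F i) B Q →
      BL P)
    {g : Fin n → ℕ} (hg : ∀ i, ∀ y : F i, Transcendental ℂ y → (∀ P ∈ B i, 0 < P.ord y) →
      g i ≤ finrank ℂ⟮y⟯ (F i))
    (hs : ∀ l : Fin n, 2 * finrank (MF F L (Js n l))
      (IntermediateField.adjoin (MF F L (Js n l)) (F l : Set K)) < g l) :
    KodGe ℂ L n BL n := by
  have hL : Algebra.trdeg ℂ L = n := Pool.Agent.Y184.NT.trdeg_below (K := K) hK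
  have hessL : Algebra.EssFiniteType ℂ L := Pool.Agent.TH466.QG.ess_below (K := K)
  choose x hx hBx using fun i => exists_xB (hBf i)
  choose D0 hD0 using fun i => exists_D (hx i)
  have hb := Pool.Agent.W619.X.basis_of_alg F halg hK x hx
  obtain ⟨y, G, h, hy, hG, hh, hm, hreg, hval⟩ :=
    exists_traceL (L := L) (E := fun i => F i) hK hL hx hb hD0 B hB
  have hm' := mem_MF_univ hm
  obtain ⟨τ0⟩ : Nonempty (K →ₐ[L] AlgebraicClosure L) :=
    ⟨IsAlgClosed.lift (R := L) (M := AlgebraicClosure L) (S := K)⟩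
  have hT : IsScalarTower ℂ L (AlgebraicClosure L) := inferInstance
  obtain ⟨f1, hf1⟩ := exists_trace_neL hx hD0 hh hm' hBf hBx hg
    (fun l => lt_of_le_of_lt (by omega) (hs l))
  obtain ⟨T, hTdef⟩ : ∃ T : {f : ∀ i, F i // ∀ i, f i ∈ HL (D0 i) (B i)} → L,
    ∀ f, T f = Algebra.trace L K (h * ∏ i, algebraMap (F i) K (f.1 i)) := ⟨_, fun _ => rfl⟩
  obtain ⟨Ω', iF, iA, iC, i1, i2, lam, hlam, hlamT, hpts⟩ := exists_pts T (f1 := f1)
    (by rw [hTdef]; exact hf1)
  obtain ⟨τ, hτ⟩ := exists_secondL hlam hx hD0 hh hm' hBf hBx (fun f hf => by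
    have := hlamT ⟨f, hf⟩
    rw [hTdef] at this
    exact this) hg hs τ0
  refine kodGe_of_algL hL hG T ⟨f1, by rw [hTdef]; exact hf1⟩ (fun f P hP => ?_)
    (trdeg_adj hb.1) fun l => ?_
  · rw [hTdef]
    exact hreg f.1 f.2 P hP
  · exact alg_back τ0 (hpts _ _ (hτ l (x l)).symm)

end

end Pool.Agent.N145.PL
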