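import Pool.Agent.N145.PL.Stm

/-!
Logarithmic differentials from linear functionals.
-/

set_option autoImplicit false
set_option linter.overlappingInstances false
set_option linter.unusedSectionVars false

open Polynomial FF IsDedekindDomain IntermediateField

namespace Pool.Agent.N145.PL

open Pool.Agent.W603.LV Pool.Agent.W619.PQ Pool.Agent.N145.PC

theorem bd_nonneg {X : Type} (B : Set X) (P : X) : 0 ≤ bd B P := by
  unfold bd
  split_ifs <;> norm_num

theorem bd_le {X : Type} (B : Set X) (P : X) : bd B P ≤ 1 := by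
  unfold bd
  split_ifs <;> norm_num

section

variable {k F : Type} [Field k] [Field F] [Algebra k F]

/-- functions regular at all poles of `x`, with zeros on `B` -/
def BJ (x : F) (B : Set (Place k F)) : Submodule k F where
  carrier := {y | ∀ P : Place k F, P.ord x < 0 → Ge P (bd B P) y}
  add_mem' := fun ha hb P hP => (ha P hP).add (hb P hP)
  zero_mem' := fun P _ => Ge.zero
  smul_mem' := by
    intro c y hy P hP
    rw [Algebra.smul_def]
    simpa using (Ge.const (P := P) c).mul (hy P hP)

variable {x : F} {lam : F →ₗ[k] k} {B : Set (Place k F)}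

/-- the shifted functional -/
noncomputable def sh (x : F) (lam : F →ₗ[k] k) : F →ₗ[k] k := lam ∘ₗ LinearMap.mulLeft k x⁻¹

theorem sh_apply (x : F) (lam : F →ₗ[k] k) (y : F) : sh x lam y = lam (x⁻¹ * y) := rfl

theorem sh_BI (hI : ∀ y ∈ BJ (k := k) x B, lam y = 0) : ∀ y ∈ BI (k := k) x, sh x lam y = 0 := by
  intro y hy
  rw [sh_apply]
  apply hI
  intro P hP
  have h1 : Ge P 1 x⁻¹ := Or.inr (by rw [P.ord_inv]; omega)
  refine (h1.mul (hy P hP)).mono ?_
  have := bd_le B P
  omega

variable [CharZero k] [IsFF k F] (hI : ∀ y ∈ BJ (k := k) x B, lam y = 0)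

theorem S2_coeff (hx0 : x ≠ 0) (y : F) (j : ℤ) :
    (SS (sh x lam) (sh_BI hI) (x * y)).coeff j = lam (x ^ (j - 1) * y) := by
  rw [SS_coeff, sh_apply]
  congr 1
  field_simp

theorem S2_poly (hx0 : x ≠ 0) (p : k[X]) (y : F) :
    SS (sh x lam) (sh_BI hI) (x * (aeval x p * y)) = eU p * SS (sh x lam) (sh_BI hI) (x * y) := by
  rw [← SS_poly _ _ hx0]
  congr 1
  ring

theorem S2_of_BB (hx0 : x ≠ 0) (hB : ∀ y ∈ BB (k := k) x, lam y = 0) {y : F}
    (hy : y ∈ BB (k := k) x) : ∃ p : k[X], eU p = SS (sh x lam) (sh_BI hI) (x * y) := by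
  apply exists_poly_of_coeff
  intro j hj
  rw [S2_coeff hI hx0]
  apply hB
  obtain ⟨n, hn⟩ := Int.eq_ofNat_of_zero_le (show 0 ≤ j - 1 by omega)
  rw [hn, zpow_natCast]
  exact BB_mul_pow hy n

variable [IsAlgClosed k]

theorem S2_mem (hx : Transcendental k x) (hB : ∀ y ∈ BB (k := k) x, lam y = 0) (y : F) :
    ∃ r : k⟮x⟯, iota hx r = SS (sh x lam) (sh_BI hI) (x * y) := by
  have hx0 : x ≠ 0 := by
    rintro rfl
    exact hx isAlgebraic_zero
  obtain ⟨g, hg, hgy, -⟩ := clear hx y
  obtain ⟨p, hp⟩ := S2_of_BB hI hx0 hB hgy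
  rw [S2_poly hI hx0] at hp
  refine ⟨px x p / px x g, ?_⟩
  rw [map_div₀, iota_px, iota_px, hp, mul_div_cancel_left₀ _ (eU_ne hg)]

/-- **The multiplier.** -/
theorem exists_mult2 (hx : Transcendental k x) (hB : ∀ y ∈ BB (k := k) x, lam y = 0)
    (hne : lam ≠ 0) :
    ∃ f : F, f ≠ 0 ∧ ∀ y, iota hx (Algebra.trace k⟮x⟯ F (f * y)) =
      SS (sh x lam) (sh_BI hI) (x * y) := by
  classical
  have hx0 : x ≠ 0 := by
    rintro rfl
    exact hx isAlgebraic_zero
  choose T hT using S2_mem hI hx hB
  let T' : F →ₗ[k⟮x⟯] k⟮x⟯ :=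
    { toFun := T
      map_add' := by
        intro a b
        apply iota_injective hx
        rw [map_add, hT, hT, hT, mul_add, map_add]
      map_smul' := by
        intro r y
        apply iota_injective hx
        rw [hT, RingHom.id_apply, smul_eq_mul, RingHom.map_mul, hT]
        have h1 := SS_smul (sh x lam) (sh_BI hI) hx r (x * y)
        rw [← h1]
        congr 1
        change x * ((r : F) * y) = (r : F) * (x * y)
        ring }
  have hfin := IsFF.finite hx
  have hchar : CharZero k⟮x⟯ := charZero_of_injective_algebraMap (algebraMap k k⟮x⟯).injective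
  have hsep : Algebra.IsSeparable k⟮x⟯ F := inferInstance
  have hnd := traceForm_nondegenerate k⟮x⟯ F
  obtain ⟨f, hf⟩ := (LinearMap.BilinForm.toDual (Algebra.traceForm k⟮x⟯ F) hnd).surjective T'
  have hf' : ∀ y, Algebra.trace k⟮x⟯ F (f * y) = T y := by
    intro y
    have := congrArg (fun φ : Module.Dual k⟮x⟯ F => φ y) hf
    have h2 : Algebra.trace k⟮x⟯ F (f * y) = T' y := by
      simpa [LinearMap.BilinForm.toDual_def, Algebra.traceForm_apply] using this
    exact h2
  refine ⟨f, ?_, fun y => by rw [hf', hT]⟩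
  rintro rfl
  apply hne
  ext y
  have h1 := hf' y
  rw [zero_mul, map_zero] at h1
  have h2 := hT y
  rw [← h1, map_zero] at h2
  have h3 := congrArg (fun s : HahnSeries ℤ k => s.coeff 1) h2
  simp only [S2_coeff hI hx0, HahnSeries.coeff_zero, sub_self, zpow_zero, one_mul] at h3
  rw [← h3]; rfl

omit [IsFF k F] [CharZero k] [IsAlgClosed k] in
/-- a function with prescribed order `0` or `1` at finitely many places -/
theorem exists_u [CharZero k] (Z : Finset (Place k F)) (B : Set (Place k F)) :
    ∃ u : F, u ≠ 0 ∧ ∀ P ∈ Z, P.ord u = bd B P := by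
  classical
  choose t ht0 ht using fun P : Place k F => P.surj
  induction Z using Finset.induction_on with
  | empty => exact ⟨1, one_ne_zero, by simp⟩
  | insert P Z hP ih =>
    obtain ⟨u, hu0, hu⟩ := ih
    obtain ⟨y, h1, h2⟩ := approx_one Z P hP (t P ^ (bd B P)) 2
    obtain ⟨z, h3, h4⟩ := approx_one Z P hP (1 : F) (2 + |P.ord u|)
    -- `w = y + u (1 - z)`
    have hP1 : Ge P (bd B P + 1) (y + u * (1 - z) - t P ^ (bd B P)) := by
      have e1 : y + u * (1 - z) - t P ^ (bd B P) = (y - t P ^ (bd B P)) - u * (z - 1) := by ring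
      rw [e1]
      have hle := bd_le B P
      refine Ge.sub (h1.mono (by omega)) ?_
      have h5 : Ge P (P.ord u) u := Or.inr le_rfl
      refine (h5.mul h3).mono ?_
      have := neg_abs_le (P.ord u)
      omega
    have hP2 : y + u * (1 - z) ≠ 0 ∧ P.ord (y + u * (1 - z)) = bd B P := by
      have h5 : t P ^ (bd B P) ≠ 0 := zpow_ne_zero _ (ht0 P)
      have h6 : P.ord (t P ^ (bd B P)) = bd B P := by rw [P.ord_zpow, ht, mul_one]
      by_cases h7 : y + u * (1 - z) - t P ^ (bd B P) = 0
      · rw [sub_eq_zero.1 h7]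
        exact ⟨h5, h6⟩
      · have h8 := hP1.resolve_left h7
        have h9 := P.ord_add_eq (f := t P ^ (bd B P)) (g := y + u * (1 - z) - t P ^ (bd B P)) h5 h7
          (by omega)
        rw [add_sub_cancel, h6] at h9
        exact h9
    refine ⟨y + u * (1 - z), hP2.1, fun Q hQ => ?_⟩
    rcases Finset.mem_insert.1 hQ with rfl | hQ
    · exact hP2.2
    · have h5 := hu Q hQ
      have hle := bd_le B Q
      have h6 : Ge Q (bd B Q + 1) (y + u * (1 - z) - u) := by
        have e1 : y + u * (1 - z) - u = y - u * z := by ring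
        rw [e1]
        refine Ge.sub ((h2 Q hQ).mono (by omega)) ?_
        have h7 : Ge Q (Q.ord u) u := Or.inr le_rfl
        refine (h7.mul (h4 Q hQ)).mono ?_
        have := bd_nonneg B Q
        have := abs_nonneg (P.ord u)
        omega
      by_cases h7 : y + u * (1 - z) - u = 0
      · rw [sub_eq_zero.1 h7, h5]
      · have h8 := h6.resolve_left h7
        have h9 := Q.ord_add_eq (f := u) (g := y + u * (1 - z) - u) hu0 h7 (by omega)
        rw [add_sub_cancel, h5] at h9
        exact h9.2

/-- **The multiplier is a logarithmic differential.** -/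
theorem mult_regular2 (hx : Transcendental k x) (D : Derivation k F F) (hD : D x = 1)
    (hB : ∀ y ∈ BB (k := k) x, lam y = 0) (hBx : ∀ P ∈ B, P.ord x < 0)
    {f : F} (hf0 : f ≠ 0)
    (hf : ∀ y, iota hx (Algebra.trace k⟮x⟯ F (f * y)) = SS (sh x lam) (sh_BI hI) (x * y))
    (P : Place k F) : vo P D - bd B P ≤ P.ord f := by
  classical
  have hD0 : D ≠ 0 := by
    rintro rfl
    simp at hD
  have hfin := IsFF.finite hx
  have hx0 : x ≠ 0 := by
    rintro rfl
    exact hx isAlgebraic_zero
  by_contra hcon
  push Not at hcon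
  have hsF : IsScalarTower k k⟮x⟯ F := inferInstance
  let xx : k⟮x⟯ := ⟨x, mem_adjoin_simple_self k x⟩
  rcases lt_or_ge (P.ord x) 0 with hPx | hPx
  · -- a pole of x
    obtain ⟨e0, q, hq⟩ := exists_over (K := k⟮x⟯) P ⟨xx, by
      change P.ord x ≠ 0; omega⟩
    have hvo := (ord_der P hD0 (f := x) (by omega)).2
    rw [hD, P.ord_one] at hvo
    have hfs := finite_support (k := k) x
    obtain ⟨u, hu0, hu⟩ := exists_u hfs.toFinset B
    have hmem : ∀ w : Place k F, w.ord x < 0 → w ∈ hfs.toFinset := by
      intro w hw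
      rw [hfs.mem_toFinset]
      show w.ord x ≠ 0
      omega
    have hh0 : x * (f * u) ≠ 0 := mul_ne_zero hx0 (mul_ne_zero hf0 hu0)
    have hqx : q.ord xx < 0 := by
      have h1 := hq.2 xx
      have h2 : P.ord (algebraMap k⟮x⟯ F xx) = P.ord x := rfl
      have h3 := hq.1
      by_contra hcon
      push Not at hcon
      have : (0 : ℤ) ≤ e0 * q.ord xx := by positivity
      omega
    obtain ⟨b, hb1, hb2⟩ := exists_contra q P e0 hq (hfs.toFinset.filter fun w => w.ord x < 0)
      (by
        intro w e hw
        have h1 := hw.2 xx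
        have h2 : w.ord (algebraMap k⟮x⟯ F xx) = w.ord x := rfl
        have h3 := hw.1
        have h4 : (e : ℤ) * q.ord xx < 0 := mul_neg_of_pos_of_neg (by exact_mod_cast h3) hqx
        rw [Finset.mem_filter, hfs.mem_toFinset]
        refine ⟨?_, by omega⟩
        show w.ord x ≠ 0
        omega)
      (x * (f * u)) hh0 (by
        rw [P.ord_mul hx0 (mul_ne_zero hf0 hu0), P.ord_mul hf0 hu0, hu P (hmem P hPx)]
        omega)
    apply hb2
    have hbI : ∀ w : Place k F, w.ord x < 0 → Ge w (bd B w) (u * b) := by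
      intro w hw
      have h1 : Ge w 0 b := by
        apply hb1
        rw [Finset.mem_filter]
        exact ⟨hmem w hw, hw⟩
      have h2 : Ge w (bd B w) u := Or.inr (hu w (hmem w hw)).ge
      simpa using h2.mul h1
    -- the trace
    set r := Algebra.trace k⟮x⟯ F (f * (u * b)) with hr
    have h5 : Algebra.trace k⟮x⟯ F (x * (f * u) * b) = xx * r := by
      have h6 : x * (f * u) * b = x * (f * (u * b)) := by ring
      rw [hr, h6]
      exact trace_mul_left xx (f * (u * b))
    rw [h5]
    have h6 : ∀ j : ℤ, j < 2 → (iota hx r).coeff j = 0 := by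
      intro j hj
      rw [hf (u * b), S2_coeff hI hx0]
      apply hI
      intro w hw
      obtain ⟨n, hn⟩ := Int.eq_ofNat_of_zero_le (show 0 ≤ -(j - 1) by omega)
      have h7 : j - 1 = -(n : ℤ) := by omega
      rw [h7]
      have h8 : Ge w 0 (x ^ (-(n : ℤ))) := by
        right
        rw [w.ord_zpow]
        exact mul_nonneg_of_nonpos_of_nonpos (by omega) (by omega)
      simpa using h8.mul (hbI w hw)
    by_cases hr0 : r = 0
    · left; rw [hr0, mul_zero]
    obtain ⟨p, g, hg, hpg⟩ := exists_px_div r
    have hp : p ≠ 0 := by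
      rintro rfl
      rw [map_zero, mul_eq_zero] at hpg
      rcases hpg with h | h
      · exact hr0 h
      · exact hg (px_injective hx (by rw [h, map_zero]))
    have h7 := congrArg (iota hx) hpg
    rw [map_mul, iota_px, iota_px] at h7
    have h8 : 2 ≤ (iota hx r).order := by
      by_contra hlt
      push Not at hlt
      have h9 := h6 _ hlt
      rw [HahnSeries.coeff_order_eq_zero, map_eq_zero] at h9
      exact hr0 h9
    have h9 := congrArg HahnSeries.order h7
    rw [HahnSeries.order_mul (by rwa [Ne, map_eq_zero]) (eU_ne hg), order_eU hg, order_eU hp] at h9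
    -- orders at P
    have h10 := congrArg (fun z : k⟮x⟯ => P.ord (algebraMap k⟮x⟯ F z)) hpg
    simp only [map_mul] at h10
    have h11 : ∀ s : k[X], algebraMap k⟮x⟯ F (px x s) = aeval x s := coe_px
    rw [h11, h11, P.ord_mul (by simpa using hr0) (ord_aeval_of_neg P hPx hg).1,
      (ord_aeval_of_neg P hPx hg).2, (ord_aeval_of_neg P hPx hp).2] at h10
    right
    have h12 : P.ord (algebraMap k⟮x⟯ F (xx * r)) = P.ord x + P.ord (algebraMap k⟮x⟯ F r) := by
      rw [map_mul, P.ord_mul _ (by simpa using hr0)]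
      · rfl
      · change x ≠ 0; exact hx0
    rw [hq.2] at h12
    have h13 : (2 : ℤ) ≤ (g.natDegree : ℤ) - p.natDegree := by omega
    have h14 : P.ord (algebraMap k⟮x⟯ F r) = -(((g.natDegree : ℤ) - p.natDegree) * P.ord x) := by
      linarith
    have h15 : ((g.natDegree : ℤ) - p.natDegree) * P.ord x ≤ 2 * P.ord x := by
      apply mul_le_mul_of_nonpos_right h13 hPx.le
    have h16 : (0 : ℤ) < e0 * q.ord (xx * r) := by omega
    have h17 := (pos_iff_pos_of_mul_pos h16).1 (by exact_mod_cast hq.1)
    omega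
  · -- x is regular at P
    have hPB : bd B P = 0 := by
      unfold bd
      rw [if_neg]
      intro h
      have := hBx P h
      omega
    rw [hPB, sub_zero] at hcon
    obtain ⟨c, hc⟩ := exists_const P (f := x) (Or.inr hPx)
    have hs0 := sub_const_ne (k := k) hx c
    have hc' := hc.resolve_left hs0
    set s : F := x - algebraMap k F c with hs
    let ss : k⟮x⟯ := xx - algebraMap k k⟮x⟯ c
    have hss : algebraMap k⟮x⟯ F ss = s := rfl
    obtain ⟨e0, q, hq⟩ := exists_over (K := k⟮x⟯) P ⟨ss, by
      rw [hss]; omega⟩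
    have hDs : D s = 1 := by
      rw [hs, map_sub, hD, Derivation.map_algebraMap, sub_zero]
    have hvo := (ord_der P hD0 (f := s) (by omega)).2
    rw [hDs, P.ord_one] at hvo
    have hfs := finite_support (k := k) s
    have hqs : 0 < q.ord ss := by
      have h1 := hq.2 ss
      rw [hss] at h1
      have h16 : (0 : ℤ) < e0 * q.ord ss := by omega
      exact (pos_iff_pos_of_mul_pos h16).1 (by exact_mod_cast hq.1)
    obtain ⟨b, hb1, hb2⟩ := exists_contra q P e0 hq (hfs.toFinset.filter fun w => 0 < w.ord s)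
      (by
        intro w e hw
        have h1 := hw.2 ss
        rw [hss] at h1
        have h3 := hw.1
        have h4 : 0 < (e : ℤ) * q.ord ss := mul_pos (by exact_mod_cast h3) hqs
        rw [Finset.mem_filter, hfs.mem_toFinset]
        refine ⟨?_, by omega⟩
        show w.ord s ≠ 0
        omega)
      (s * f) (mul_ne_zero hs0 hf0) (by rw [P.ord_mul hs0 hf0]; omega)
    apply hb2
    set r := Algebra.trace k⟮x⟯ F (f * b) with hr
    have h5 : Algebra.trace k⟮x⟯ F (s * f * b) = ss * r := by
      rw [hr, mul_assoc]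
      exact trace_mul_left ss (f * b)
    rw [h5]
    -- clear denominators
    obtain ⟨g, hg0, hgB, hgc⟩ := clear hx b
    have hgc' : g.eval c ≠ 0 := by
      apply hgc
      intro w hw
      change 0 < w.ord s at hw
      apply hb1
      rw [Finset.mem_filter, hfs.mem_toFinset]
      refine ⟨?_, hw⟩
      show w.ord s ≠ 0
      omega
    obtain ⟨p, hp⟩ := S2_of_BB hI hx0 hB hgB
    have h6 : px x g * r = px x p := by
      apply iota_injective hx
      rw [map_mul, iota_px, iota_px, hp, S2_poly hI hx0, ← hf b]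
    -- regularity at q
    have hqx : Ge q 0 xx := by
      have h7 : Ge q 1 ss := Or.inr (by omega)
      have h8 := (h7.mono (by omega : (0 : ℤ) ≤ 1)).add (Ge.const (P := q) c)
      have e : ss + algebraMap k k⟮x⟯ c = xx := sub_add_cancel _ _
      rwa [e] at h8
    have hpr : Ge q 0 (px x p) := ge_aeval q hqx p
    have hgr : q.ord (px x g) = 0 := by
      have h7 : Ge q 0 (px x g) := ge_aeval q hqx g
      have h8 : Ge q 1 (px x g - algebraMap k k⟮x⟯ (g.eval c)) := by
        have h9 : X - C c ∣ g - C (g.eval c) := by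
          rw [dvd_iff_isRoot]; simp
        obtain ⟨g', hg'⟩ := h9
        have h10 : px x g - algebraMap k k⟮x⟯ (g.eval c) = ss * px x g' := by
          have := congrArg (px x) hg'
          rw [map_sub, map_mul, map_sub] at this
          have e1 : px x (C (g.eval c)) = algebraMap k k⟮x⟯ (g.eval c) := by
            unfold px; rw [aeval_C]
          have e2 : px x (X : k[X]) - px x (C c) = ss := by
            unfold px; rw [aeval_X, aeval_C]
          rw [e1, e2] at this
          exact this
        rw [h10]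
        have h11 : Ge q 1 ss := Or.inr (by omega)
        have h12 : Ge q 0 (px x g') := ge_aeval q hqx g'
        have h13 := h11.mul h12
        rwa [add_zero] at h13
      have h12 : q.ord (algebraMap k k⟮x⟯ (g.eval c)) = 0 := q.ord_const hgc'
      have hne : algebraMap k k⟮x⟯ (g.eval c) ≠ 0 := by simpa using hgc'
      by_cases h13 : px x g - algebraMap k k⟮x⟯ (g.eval c) = 0
      · rw [sub_eq_zero.1 h13, h12]
      · have h14 := h8.resolve_left h13
        have h15 := q.ord_add_eq hne h13 (by omega)
        rw [add_sub_cancel, h12] at h15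
        exact h15.2
    have hr1 : Ge q 0 r := by
      have h7 := Ge.of_mul' (P := q) (N := 0) (m := 0) (h := px x g) (f := r)
        (fun h => hg0 (px_injective hx (by rw [h, map_zero]))) hgr (by rw [h6]; simpa using hpr)
      simpa using h7
    have h11 : Ge q 1 ss := Or.inr (by omega)
    simpa using h11.mul hr1

end

end Pool.Agent.N145.PL
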