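import Pool.Agent.N145.PL.Spec
import Pool.Agent.N145.PC.GT

/-!
Exterior products of logarithmic differentials on the factors, and their traces.
-/

set_option autoImplicit false
set_option linter.overlappingInstances false
set_option linter.unusedSectionVars false
set_option linter.unusedVariables false
set_option maxHeartbeats 4000000
set_option synthInstance.maxHeartbeats 400000

open Polynomial FF IsDedekindDomain IntermediateField Module

namespace Pool.Agent.N145.PL

open Pool.Agent.W603.LV Pool.Agent.W619.PQ Pool.Agent.N145.PC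
open Pool.Agent.W602.GT (Divisorial RegAt IsPluri DerReg DerLog LogAt KodGe LogSec)
open Pool.Agent.Y184.NT (trForm trForm_pluri)
open Pool.Agent.R882.LT (SecAt)

section

variable {K : Type} [Field K] [Algebra ℂ K] {n : ℕ} {E : Fin n → Type} [∀ i, Field (E i)]
  [∀ i, Algebra ℂ (E i)] [∀ i, Algebra (E i) K] [∀ i, IsScalarTower ℂ (E i) K]
  [∀ i, IsFF ℂ (E i)]

/-- the boundary of the product: the places over boundary points of the factors -/
def BdK (B : ∀ i, Set (Place ℂ (E i))) (Q : Place ℂ K) : Prop :=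
  ∃ i, ∃ p ∈ B i, ∃ e : ℕ, Over Q p e

/-- the exterior product of logarithmic differentials is regular outside the boundary -/
theorem prod_regL {x : ∀ i, E i} (hx : ∀ i, Transcendental ℂ (x i))
    {D0 : ∀ i, Derivation ℂ (E i) (E i)} (hD0 : ∀ i, D0 i (x i) = 1)
    {B : ∀ i, Set (Place ℂ (E i))} {f : ∀ i, E i}
    (hf : ∀ i, f i ∈ HL (D0 i) (B i)) (P : Place ℂ K) (hP : ¬ BdK B P) :
    RegAt P (extForm (K := K) 1 D0 x f) := by
  classical
  intro D hD
  have hD0' : ∀ i, D0 i ≠ 0 := by
    intro i h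
    have := hD0 i
    rw [h] at this
    simp at this
  by_cases h0 : ∃ i, f i = 0
  · obtain ⟨i, hi⟩ := h0
    left
    unfold extForm
    rw [Finset.prod_eq_zero (Finset.mem_univ i) (by rw [hi, zero_div, map_zero]), zero_mul]
  · push Not at h0
    have hs : ∀ i, ∃ s : ℚ, ((∀ g : E i, P.ord (algebraMap (E i) K g) = 0) ∧ s = 0) ∨
        (s = 1 ∧ ∃ (p : Place ℂ (E i)) (e : ℕ), Over P p e) := by
      intro i
      by_cases h : ∀ g : E i, P.ord (algebraMap (E i) K g) = 0
      · exact ⟨0, Or.inl ⟨h, rfl⟩⟩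
      · push Not at h
        obtain ⟨e, p, hp⟩ := exists_over (K := E i) P h
        exact ⟨1, Or.inr ⟨rfl, p, e, hp⟩⟩
    choose s hs using hs
    refine extForm_regular 1 D0 hD0' x f hx h0 P s (fun i => ?_) ?_ D hD
    · rcases hs i with h | ⟨h1, p, e, hp⟩
      · exact Or.inl h
      · right
        refine ⟨p, e, hp, ?_⟩
        have hpB : bd (B i) p = 0 := by
          unfold bd
          rw [if_neg]
          exact fun h => hP ⟨i, p, h, e, hp⟩
        have h2 := (hf i p).resolve_left (h0 i)
        rw [hpB, sub_zero] at h2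
        have h3 : (vo p (D0 i) : ℚ) ≤ p.ord (f i) := by exact_mod_cast h2
        have h4 : (1 : ℚ) ≤ e := by exact_mod_cast hp.1
        rw [h1]
        push_cast
        nlinarith
    · by_cases h : ∀ i, ∀ g : E i, P.ord (algebraMap (E i) K g) = 0
      · exact Or.inl h
      · right
        push Not at h
        obtain ⟨i, g, hg⟩ := h
        have h1 : s i = 1 := by
          rcases hs i with h | h
          · exact absurd (h.1 g) hg
          · exact h.1
        have h2 : ∀ j ∈ Finset.univ, (0 : ℚ) ≤ s j := by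
          intro j _
          rcases hs j with h | h
          · rw [h.2]
          · rw [h.1]
            norm_num
        have h3 := Finset.single_le_sum h2 (Finset.mem_univ i)
        rwa [h1] at h3

/-- the exterior product of logarithmic differentials is logarithmic -/
theorem prod_logL {x : ∀ i, E i} (hx : ∀ i, Transcendental ℂ (x i))
    {D0 : ∀ i, Derivation ℂ (E i) (E i)} (hD0 : ∀ i, D0 i (x i) = 1)
    {B : ∀ i, Set (Place ℂ (E i))} {f : ∀ i, E i}
    (hf : ∀ i, f i ∈ HL (D0 i) (B i)) (P : Place ℂ K) :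
    LogAt P (extForm (K := K) 1 D0 x f) := by
  classical
  intro D hD
  have hD0' : ∀ i, D0 i ≠ 0 := by
    intro i h
    have := hD0 i
    rw [h] at this
    simp at this
  have hent : ∀ j i, Ge P 0 (algebraMap (E i) K (f i) * D j (algebraMap (E i) K (x i))) := by
    intro j i
    have hlog : ∀ z : K, Ge P 0 (D j z / z) := fun z => hD j z
    by_cases h : ∀ g : E i, P.ord (algebraMap (E i) K g) = 0
    · have h1 : Ge P 0 (algebraMap (E i) K (f i)) := Or.inr (h _).ge
      have hx0 : algebraMap (E i) K (x i) ≠ 0 := by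
        rw [Ne, map_eq_zero]
        intro h0
        apply hx i
        rw [h0]
        exact isAlgebraic_zero
      have h2 : Ge P 0 (algebraMap (E i) K (x i)) := Or.inr (h _).ge
      have h3 := (hlog (algebraMap (E i) K (x i))).mul h2
      rw [div_mul_cancel₀ _ hx0] at h3
      simpa using h1.mul h3
    · push Not at h
      obtain ⟨e, p, hp⟩ := exists_over (K := E i) P h
      obtain ⟨t, ht0, ht⟩ := p.surj
      obtain ⟨r, hr1, hr2⟩ := ratio' (K := K) (k := ℂ) (E := E i) (hx i) t
      have h1 : r = D0 i t := by rw [hr1, hD0, mul_one]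
      have h2 := ord_der p (hD0' i) (f := t) (by omega)
      rw [← h1, ht] at h2
      have hr0 : r ≠ 0 := h2.1
      have h3 : Ge p 0 (f i * t / r) := by
        rcases hf i p with h4 | h4
        · left
          rw [h4, zero_mul, zero_div]
        · by_cases hf0 : f i = 0
          · left
            rw [hf0, zero_mul, zero_div]
          · right
            rw [p.ord_div (mul_ne_zero hf0 ht0) hr0, p.ord_mul hf0 ht0, ht, h2.2]
            have := bd_le (B i) p
            omega
      have h4 : Ge P 0 (algebraMap (E i) K (f i * t / r)) := by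
        rcases h3 with h5 | h5
        · left
          rw [h5, map_zero]
        · right
          rw [hp.2]
          positivity
      have htK : algebraMap (E i) K t ≠ 0 := by simpa using ht0
      have hrK : algebraMap (E i) K r ≠ 0 := by simpa using hr0
      have h5 := h4.mul (hlog (algebraMap (E i) K t))
      have h6 : algebraMap (E i) K (f i * t / r) * (D j (algebraMap (E i) K t) /
          algebraMap (E i) K t) = algebraMap (E i) K (f i) * D j (algebraMap (E i) K (x i)) := by
        rw [hr2 (D j), map_div₀, map_mul]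
        field_simp
      rw [h6] at h5
      simpa using h5
  have h1 := ge_det P (Matrix.of fun j i => algebraMap (E i) K (f i) *
    D j (algebraMap (E i) K (x i)) : Matrix (Fin n) (Fin n) K) hent
  have h2 := Matrix.det_mul_row (fun i => algebraMap (E i) K (f i))
    (Matrix.of fun j i => D j (algebraMap (E i) K (x i)) : Matrix (Fin n) (Fin n) K)
  rw [prod_val hD0, ← h2]
  exact h1

/-- the exterior product of logarithmic differentials -/
theorem prod_sec {x : ∀ i, E i} (hx : ∀ i, Transcendental ℂ (x i))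
    {D0 : ∀ i, Derivation ℂ (E i) (E i)} (hD0 : ∀ i, D0 i (x i) = 1)
    {B : ∀ i, Set (Place ℂ (E i))} {f : ∀ i, E i}
    (hf : ∀ i, f i ∈ HL (D0 i) (B i)) (P : Place ℂ K) :
    SecAt (BdK B) P (extForm (K := K) 1 D0 x f) :=
  ⟨prod_logL hx hD0 hf P, prod_regL hx hD0 hf P⟩

variable {L : Type} [Field L] [Algebra ℂ L] [Algebra L K] [IsScalarTower ℂ L K]
  [FiniteDimensional L K]

/-- **The traces are logarithmic canonical forms.** -/
theorem exists_traceL [Algebra.EssFiniteType ℂ K] [Algebra.EssFiniteType ℂ L]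
    (htr : Algebra.trdeg ℂ K = n) (hL : Algebra.trdeg ℂ L = n) {x : ∀ i, E i}
    (hx : ∀ i, Transcendental ℂ (x i)) (hb : IsTranscendenceBasis ℂ fun i => algebraMap (E i) K (x i))
    {D0 : ∀ i, Derivation ℂ (E i) (E i)} (hD0 : ∀ i, D0 i (x i) = 1)
    (B : ∀ i, Set (Place ℂ (E i))) {BL : Place ℂ L → Prop}
    (hB : ∀ (P : Place ℂ L) (Q : Place ℂ K) (e : ℕ), Over Q P e → BdK B Q → BL P) :
    ∃ (y : Fin n → L) (G : Fin n → Derivation ℂ L L) (h : K), IsTranscendenceBasis ℂ y ∧
      (∀ i j, G i (y j) = if i = j then 1 else 0) ∧ h ≠ 0 ∧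
      h ∈ IntermediateField.adjoin L (⋃ i, Set.range (algebraMap (E i) K)) ∧
      (∀ f : ∀ i, E i, (∀ i, f i ∈ HL (D0 i) (B i)) → ∀ P : Place ℂ L, Divisorial n P →
        SecAt BL P (trForm y (Algebra.trace L K (h * ∏ i, algebraMap (E i) K (f i))))) ∧
      ∀ (M : IntermediateField L K) (f : ∀ i, E i) (D : Fin n → Derivation ℂ M M)
        (D' : Fin n → Derivation ℂ K K),
        (∀ i g, D' i (algebraMap M K g) = algebraMap M K (D i g)) →
        ∃ a : M, extForm 1 D0 x f D' = algebraMap M K a * (h * ∏ i, algebraMap (E i) K (f i)) := by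
  classical
  obtain ⟨K1, hK1⟩ : ∃ K1, K1 = IntermediateField.adjoin L (⋃ i, Set.range (algebraMap (E i) K)) :=
    ⟨_, rfl⟩
  have hT1 : IsScalarTower ℂ K1 K := IsScalarTower.of_algebraMap_eq fun z => rfl
  have hess1 : Algebra.EssFiniteType ℂ K1 := Pool.Agent.TH466.QG.ess_below (K := K)
  have htr1 : Algebra.trdeg ℂ K1 = n := Pool.Agent.Y184.NT.trdeg_below (K := K) htr
  obtain ⟨y, G, hy, hG⟩ := Pool.Agent.Y172.exists_crd hL
  choose G1 hG1 using fun i => Pool.Agent.Y172.exists_lift (L := K1) hL (G i)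
  choose G' hG' using fun i => Pool.Agent.Y172.exists_lift (L := K) htr1 (G1 i)
  have hGG : ∀ i f, G' i (algebraMap L K f) = algebraMap L K (G i f) := by
    intro i f
    have h1 := hG' i (algebraMap L K1 f)
    rw [hG1] at h1
    exact h1
  have hyK : IsTranscendenceBasis ℂ (fun j => algebraMap L K (y j)) := hy.algebraMap_comp
  have hGK := Pool.Agent.Y172.lift_dual hG hGG
  have hmem : ∀ i (z : E i), algebraMap (E i) K z ∈ K1 := by
    intro i z
    rw [hK1]
    exact IntermediateField.subset_adjoin _ _ (Set.mem_iUnion.2 ⟨i, z, rfl⟩)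
  obtain ⟨h, hdef⟩ : ∃ h, h = (Matrix.of fun j i => G' j (algebraMap (E i) K (x i)) :
    Matrix (Fin n) (Fin n) K).det := ⟨_, rfl⟩
  have hval : ∀ f : ∀ i, E i, extForm 1 D0 x f G' = h * ∏ i, algebraMap (E i) K (f i) := by
    intro f
    rw [prod_val hD0, hdef, mul_comm]
  refine ⟨y, G, h, hy, hG, ?_, ?_, ?_, ?_⟩
  · obtain ⟨D, hD⟩ := extForm_ne (K := K) 1 D0 x (fun _ => 1) (fun _ => one_ne_zero)
      (fun i => by rw [hD0]; exact one_ne_zero) hb
    intro h0
    apply hD
    rw [Pool.Agent.Y172.pluri_coord hyK hGK (prod_pluri x D0 _) D, hval, h0, zero_mul, mul_zero]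
  · rw [← hK1, hdef]
    have h1 : (Matrix.of fun j i => G' j (algebraMap (E i) K (x i)) :
        Matrix (Fin n) (Fin n) K) = (algebraMap K1 K).mapMatrix
          (Matrix.of fun j i => G1 j ⟨algebraMap (E i) K (x i), hmem i (x i)⟩) := by
      ext j i
      rw [RingHom.mapMatrix_apply, Matrix.map_apply, Matrix.of_apply, Matrix.of_apply]
      exact hG' j ⟨algebraMap (E i) K (x i), hmem i (x i)⟩
    rw [h1, ← RingHom.map_det]
    exact (Matrix.det _ : K1).2
  · intro f hf P hP
    rw [← hval]
    exact Pool.Agent.R882.LT.trForm_sec (BK := BdK B) (BL := BL) hL hy hG hGG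
      _ (prod_pluri x D0 f) hB (fun Q _ => prod_sec hx hD0 hf Q) P hP
  · intro M f D D' hD
    rw [Pool.Agent.Y172.pluri_coord hyK hGK (prod_pluri x D0 _) D', hval, pow_one]
    refine ⟨(Matrix.of fun i j => D i (algebraMap L M (y j)) : Matrix (Fin n) (Fin n) M).det, ?_⟩
    rw [RingHom.map_det]
    congr 2
    ext i j
    rw [RingHom.mapMatrix_apply, Matrix.map_apply, Matrix.of_apply, Matrix.of_apply]
    rw [← hD]
    rfl

end

section

variable {K L : Type} [Field K] [Field L] [Algebra ℂ K] [Algebra ℂ L] [Algebra L K]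
  [IsScalarTower ℂ L K]

/-- **Logarithmic Kodaira dimension from algebraic ratios.** -/
theorem kodGe_of_algL [FiniteDimensional L K] [Algebra.EssFiniteType ℂ L] {n N d : ℕ}
    (hL : Algebra.trdeg ℂ L = n) {y : Fin n → L} {G : Fin n → Derivation ℂ L L}
    (hG : ∀ i j, G i (y j) = if i = j then 1 else 0) {BL : Place ℂ L → Prop} {ι : Type}
    (T : ι → L) (hT0 : ∃ f, T f ≠ 0)
    (hreg : ∀ f, ∀ P : Place ℂ L, Divisorial n P → SecAt BL P (trForm y (T f))) {x : Fin N → K}
    (hd : Algebra.trdeg ℂ (IntermediateField.adjoin ℂ (Set.range x)) = d)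
    (halg : ∀ j, IsAlgebraic (Rt T) (x j)) : KodGe ℂ L n BL d := by
  obtain ⟨s, hs0, hs⟩ := Pool.Agent.R882.LT.exists_ratios_d (d := d) hL hd T hT0
    fun D h1 D' h2 j => der_alg2 (Rt T) D' (fun c hc => by
      rw [h2, der_ratio T D h1 c hc, map_zero]) (halg j)
  have hθE : ∀ t, trForm y t G = t := by
    intro t
    have h1 : (Matrix.of fun i j => G i (y j) : Matrix (Fin n) (Fin n) L) = 1 := by
      ext i j
      rw [Matrix.of_apply, hG, Matrix.one_apply]
    rw [trForm, h1, Matrix.det_one, one_mul]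
  refine ⟨1, one_pos, fun j => trForm y (T (s j)), fun l =>
    ⟨trForm_pluri y _, fun P hP => (hreg _ P hP).1, fun P hP hB => (hreg _ P hP).2 hB⟩, G, ?_, ?_⟩
  · change trForm y (T (s 0)) G ≠ 0
    rw [hθE]
    exact hs0
  · simp only [hθE]
    exact hs

end

end Pool.Agent.N145.PL
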