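import Pool.Agent.N145.PC.Base
import Pool.Agent.W619.PL.LDefs

/-!
Logarithmic differentials on curves: definitions and statements.
-/

set_option autoImplicit false
set_option linter.overlappingInstances false
set_option linter.unusedSectionVars false

open Polynomial FF IsDedekindDomain IntermediateField

namespace Pool.Agent.N145.PL

open Pool.Agent.W603.LV Pool.Agent.W619.PQ

open Classical in
/-- `1` on the boundary `B`, and `0` outside -/
noncomputable def bd {X : Type} (B : Set X) (P : X) : ℤ := if P ∈ B then 1 else 0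

/-- the functions `f` such that the differential whose value on `D` is `f` is regular outside `B` and
has at most simple poles on `B` -/
def HL {k F : Type} [Field k] [Field F] [Algebra k F] (D : Derivation k F F)
    (B : Set (Place k F)) : Submodule k F where
  carrier := {f | ∀ P : Place k F, Ge P (vo P D - bd B P) f}
  add_mem' := fun ha hb P => (ha P).add (hb P)
  zero_mem' := fun _ => Ge.zero
  smul_mem' := by
    intro c y hy P
    rw [Algebra.smul_def]
    simpa using (Ge.const (P := P) c).mul (hy P)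

/-- the places of `E` over the places in `B` -/
def above {k F0 Λ E : Type} [Field k] [Field F0] [Field Λ] [Field E] [Algebra k F0] [Algebra Λ E]
    [Algebra F0 E] (B : Set (Place k F0)) : Set (Place Λ E) :=
  {Q | ∃ P ∈ B, ∃ e : ℕ, 0 < e ∧ ∀ v : F0, Q.ord (algebraMap F0 E v) = e * P.ord v}

/-- **Logarithmic differentials after an extension of the constants.** Generalizes
`Pool.Agent.N145.PC.base_change` (the case `B = ∅`). -/
def S_BASE : Prop :=
  ∀ (k F0 Λ E : Type) [Field k] [Field F0] [Field Λ] [Field E] [Algebra k F0] [Algebra k Λ]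
    [Algebra Λ E] [Algebra F0 E] [Algebra k E] [IsScalarTower k Λ E] [IsScalarTower k F0 E]
    [CharZero k] [IsAlgClosed k] [IsFF k F0] [CharZero Λ] [IsAlgClosed Λ] [IsFF Λ E],
    IntermediateField.adjoin Λ (Set.range (algebraMap F0 E)) = ⊤ →
    (∀ z : F0, Transcendental k z → Transcendental Λ (algebraMap F0 E z)) →
    ∀ x : F0, Transcendental k x → ∀ D0 : Derivation k F0 F0, D0 x = 1 →
    ∀ B : Set (Place k F0), (∀ P ∈ B, P.ord x < 0) →
    ∀ D : Derivation Λ E E, D (algebraMap F0 E x) = 1 →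
    ∀ f : E, f ∈ HL D (above (k := k) (F0 := F0) (Λ := Λ) (E := E) B) →
      f ∈ Submodule.span Λ (algebraMap F0 E '' (HL D0 B : Set F0))

/-- **Differentials of the third kind.** -/
def S_THIRD : Prop :=
  ∀ (k F : Type) [Field k] [Field F] [Algebra k F] [CharZero k] [IsFF k F] [IsAlgClosed k]
    (D : Derivation k F F), D ≠ 0 → ∀ Q1 Q2 : Place k F, Q1 ≠ Q2 →
    ∃ g : F, g ∈ HL D {Q1, Q2} ∧ ∃ Q : Place k F, ¬ Ge Q (vo Q D) g

/-- **Curves without logarithmic differentials.** If all differentials of `F` with at most simple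
poles on `B` have trace zero on `E`, then `E` is rational, with a coordinate `s` which has poles at
all places of `B`. -/
def S_CURVE : Prop :=
  ∀ (k E F : Type) [Field k] [Field E] [Field F] [Algebra k E] [Algebra k F] [Algebra E F]
    [IsScalarTower k E F] [CharZero k] [IsAlgClosed k] [IsFF k E] [IsFF k F]
    [FiniteDimensional E F] (D : Derivation k F F) (ξ : E), D (algebraMap E F ξ) = 1 →
    ∀ B : Set (Place k F), (∀ g ∈ HL D B, Algebra.trace E F g = 0) →
    ∃ s : E, IntermediateField.adjoin k {s} = ⊤ ∧ ∀ Q ∈ B, Q.ord (algebraMap E F s) < 0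

/-- **`A¹`-uniruledness from a parametrization of the geometric generic fibre.** Extends
`Pool.Agent.R882.GL.uniruled_geo`. -/
def S_A1 : Prop :=
  ∀ (m : ℕ) (E Λ F : Type) [Field E] [Field Λ] [Field F] [Algebra ℂ E] [Algebra ℂ Λ]
    [Algebra ℂ F] [Algebra Λ F] [IsScalarTower ℂ Λ F] [Algebra.EssFiniteType ℂ E]
    [IsAlgClosed Λ] [IsFF Λ F],
    Algebra.trdeg ℂ E = (m + 1 : ℕ) → Algebra.trdeg ℂ Λ = (m : ℕ) → ∀ (ψ : E →ₐ[ℂ] F) (s : F),
    Transcendental Λ s → (∀ e, ψ e ∈ IntermediateField.adjoin Λ {s}) →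
    ∀ Bd : Place ℂ E → Prop,
    (∀ (Q : Place Λ F) (v : Place ℂ E) (e : ℕ), 0 < e → (∀ f, Q.ord (ψ f) = e * v.ord f) →
      Bd v → Q.ord s < 0) →
    Pool.Agent.W619.PL.IsA1Uniruled ℂ E (m + 1) Bd

/-- **The degrees of the residue fields** (`A` is normal, `B` is integral over `A`). -/
def S_DEG : Prop :=
  ∀ (L K : Type) [Field L] [Field K] [Algebra ℂ L] [Algebra ℂ K] [Algebra L K]
    [IsScalarTower ℂ L K] [FiniteDimensional L K] (A : Subalgebra ℂ L),
    (∀ z : L, IsIntegral A z → z ∈ A) → ∀ B : Subalgebra ℂ K,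
    (∀ z ∈ A, algebraMap L K z ∈ B) → (∀ z ∈ B, IsIntegral A z) →
    ∀ (κ K' : Type) [Field κ] [Field K'] [Algebra ℂ κ] [Algebra ℂ K'] [Algebra κ K']
      [IsScalarTower ℂ κ K'] [FiniteDimensional κ K'] (ρ : A →ₐ[ℂ] κ) (π : B →ₐ[ℂ] K'),
    (∀ (a : L) (ha : a ∈ A) (hb : algebraMap L K a ∈ B), π ⟨algebraMap L K a, hb⟩ =
      algebraMap κ K' (ρ ⟨a, ha⟩)) →
    (∀ z : K', ∃ a b : B, π b ≠ 0 ∧ z = π a / π b) →
    Module.finrank κ K' ≤ Module.finrank L K

/-- **Subvarieties of a normal variety finitely dominated by (an open subset of) a product of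
curves.** `R i` is a coordinate ring of the `i`-th curve, `B` a localization of the coordinate ring
of the product, integral over the normal ring `A`; `p` is a prime ideal of `A`. -/
def S_LANG : Prop :=
  ∀ (K : Type) [Field K] [Algebra ℂ K] (n : ℕ) (F : Fin n → IntermediateField ℂ K)
    [∀ i, IsFF ℂ (F i)] (L : Type) [Field L] [Algebra ℂ L] [Algebra L K] [IsScalarTower ℂ L K]
    [FiniteDimensional L K] (R : Fin n → Subalgebra ℂ K),
    (∀ i, ∀ z ∈ R i, z ∈ F i) → (∀ i, ∀ z ∈ F i, ∃ a ∈ R i, ∃ b ∈ R i, b ≠ 0 ∧ z = a / b) →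
    ∀ B : Subalgebra ℂ K, (∀ i, R i ≤ B) →
    (∀ z ∈ B, ∃ a ∈ ⨆ i, R i, ∃ b ∈ ⨆ i, R i, b ≠ 0 ∧ b⁻¹ ∈ B ∧ z = a / b) →
    ∀ A : Subalgebra ℂ L, (∀ z : L, IsIntegral A z → z ∈ A) →
    (∀ z ∈ A, algebraMap L K z ∈ B) → (∀ z ∈ B, IsIntegral A z) →
    ∀ (p : Ideal A) [p.IsPrime],
    ∃ (r : ℕ) (K' : Type) (_ : Field K') (_ : Algebra ℂ K')
      (_ : Algebra (FractionRing (A ⧸ p)) K') (_ : IsScalarTower ℂ (FractionRing (A ⧸ p)) K')
      (π : B →ₐ[ℂ] K') (σ : Fin r → Fin n) (ε : ∀ i, F (σ i) →ₐ[ℂ] K'),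
      Algebra.EssFiniteType ℂ K' ∧ Algebra.trdeg ℂ K' = r ∧
      Algebra.trdeg ℂ (FractionRing (A ⧸ p)) = r ∧
      FiniteDimensional (FractionRing (A ⧸ p)) K' ∧
      Module.finrank (FractionRing (A ⧸ p)) K' ≤ Module.finrank L K ∧
      Algebra.IsAlgebraic ↥(⨆ i, (ε i).fieldRange) K' ∧
      (∀ (a : L) (ha : a ∈ A) (hb : algebraMap L K a ∈ B), π ⟨algebraMap L K a, hb⟩ =
        algebraMap (FractionRing (A ⧸ p)) K' (algebraMap (A ⧸ p) (FractionRing (A ⧸ p))
          (Ideal.Quotient.mk p ⟨a, ha⟩))) ∧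
      ∀ (i : Fin r) (z : K), z ∈ R (σ i) → ∀ (hF : z ∈ F (σ i)) (hb : z ∈ B),
        π ⟨z, hb⟩ = ε i ⟨z, hF⟩

end Pool.Agent.N145.PL
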